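import Pool.Agent.H64.Rcr.Euler
import Pool.Agent.H3.RCR.Stmts

/-! Project RCR, module G13: constrained triangulations exist. -/

namespace Pool.Agent.H64.Rcr

open Relation Pool.Agent.H3.RCR

theorem orient_eq (P Q R : Pt) : orient P Q R = D P Q R := by
  simp only [orient, dt, D, Prod.fst_sub, Prod.snd_sub]

theorem oseg_iff {a b z : Pt} : z ∈ openSegment ℝ a b ↔ OSeg a b z := by
  constructor
  · rintro ⟨s, t, hs, ht, hst, rfl⟩
    refine ⟨t, ht, by linarith, ?_⟩
    have hs' : s = 1 - t := by linarith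
    rw [hs']
    ext <;> simp only [ln, Prod.fst_add, Prod.snd_add, Prod.smul_fst, Prod.smul_snd,
      smul_eq_mul] <;> ring
  · rintro ⟨t, t0, t1, rfl⟩
    refine ⟨1 - t, t, by linarith, t0, by ring, ?_⟩
    ext <;> simp only [ln, Prod.fst_add, Prod.snd_add, Prod.smul_fst, Prod.smul_snd,
      smul_eq_mul] <;> ring

/-- the faces form a sphere -/
theorem Box.sph {S : Finset ℕ} {p : ℕ → Pt} {M : ℕ → ℕ → Prop} {A B C : ℕ}
    (h : Box S p M A B C) : Sph (faces S p M A B C) ∧ verts (faces S p M A B C) = S ∧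
      ∀ a b, M a b → Adj (faces S p M A B C) a b := by
  have hM := h.mx
  obtain ⟨e, hg⟩ := exists_gen hM.inj
  have hadj : ∀ a b, Adj (faces S p M A B C) a b ↔ M a b := by
    intro a b
    constructor
    · rintro ⟨c, hc⟩
      exact h.Fc_M (h.mem_faces.1 hc)
    · intro hab
      obtain ⟨c, hc⟩ := h.next hab
      exact ⟨c, h.mem_faces.2 hc⟩
  have hverts : verts (faces S p M A B C) = S := by
    ext v
    rw [mem_verts']
    constructor
    · rintro ⟨b, hb⟩
      exact (hM.mem _ _ ((hadj v b).1 hb)).1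
    · intro hv
      -- another point
      have hex : ∃ u ∈ S, v ≠ u := by
        by_cases hvA : v = A
        · exact ⟨B, h.hB, by rw [hvA]; exact h.AB⟩
        · exact ⟨A, h.hA, hvA⟩
      obtain ⟨u, hu, hvu⟩ := hex
      rcases lt_or_gt_of_ne (hg v hv u hu hvu) with hlt | hlt
      · obtain ⟨w, hw, -⟩ := hM.half hv hu (mv (p v) e) (by rw [D_mv]; linarith)
        exact ⟨w, (hadj v w).2 hw⟩
      · obtain ⟨w, hw, -⟩ := hM.half hv hu (mv (p v) (ng e)) (by
          rw [D_mv, hh_ng, hh_ng]; linarith)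
        exact ⟨w, (hadj v w).2 hw⟩
  refine ⟨?_, hverts, fun a b => (hadj a b).2⟩
  refine
    { rot := fun a b c habc => h.mem_faces.2 (h.mem_faces.1 habc).rot
      ne := fun a b c habc => hM.ne _ _ (h.Fc_M (h.mem_faces.1 habc))
      uniq := fun a b c d h1 h2 => h.uniq (h.mem_faces.1 h1) (h.mem_faces.1 h2)
      opp := ?_
      link := ?_
      conn := ?_
      euler := ?_ }
  · intro a b c habc
    obtain ⟨d, hd⟩ := h.next (hM.symm _ _ (h.Fc_M (h.mem_faces.1 habc)))
    exact ⟨d, h.mem_faces.2 hd⟩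
  · intro v y z hy hz
    have := h.link hg ((hadj v y).1 hy) ((hadj v z).1 hz)
    exact ReflTransGen.mono (fun a b hab => h.mem_faces.2 hab) _ _ this
  · intro a b ha hb
    rw [hverts] at ha hb
    exact ReflTransGen.mono (fun a b hab => (hadj a b).2 hab) _ _ (h.conn hg ha hb)
  · rw [hverts]
    exact h.euler hg

/-- the points realise the faces -/
theorem Box.real {S : Finset ℕ} {p : ℕ → Pt} {M : ℕ → ℕ → Prop} {A B C : ℕ}
    (h : Box S p M A B C) : Real (faces S p M A B C) (A, B, C) p where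
  mem := h.mem_faces.2 (Or.inr (Or.inl ⟨rfl, rfl, rfl⟩))
  neg := by rw [orient_eq]; exact h.neg
  pos := by
    rintro ⟨a, b, c⟩ ht hn
    rw [orient_eq]
    rcases h.mem_faces.1 ht with hf | ⟨h1, h2, h3⟩ | ⟨h1, h2, h3⟩ | ⟨h1, h2, h3⟩
    · exact hf.2.2.2.1
    · exact absurd (mem_rots.2 (Or.inl (by rw [h1, h2, h3]))) hn
    · exact absurd (mem_rots.2 (Or.inr (Or.inl (by rw [h1, h2, h3])))) hn
    · exact absurd (mem_rots.2 (Or.inr (Or.inr (by rw [h1, h2, h3])))) hn

theorem g13 : G13Stmt := by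
  classical
  rintro S p ⟨A, B, C⟩ E hS hneg hinj hins hE hcr
  simp only at hneg hE
  have hA : A ∈ S := hS A (Or.inl rfl)
  have hB : B ∈ S := hS B (Or.inr (Or.inl rfl))
  have hC : C ∈ S := hS C (Or.inr (Or.inr rfl))
  have hinj' : ∀ a ∈ S, ∀ b ∈ S, p a = p b → a = b := fun a ha b hb hab =>
    hinj (Finset.mem_coe.2 ha) (Finset.mem_coe.2 hb) hab
  let Q0 : Finset (ℕ × ℕ) := E ∪ E.image Prod.swap
  have memQ : ∀ a b, (a, b) ∈ Q0 ↔ (a, b) ∈ E ∨ (b, a) ∈ E := by
    intro a b
    simp only [Q0, Finset.mem_union, Finset.mem_image, Prod.exists, Prod.swap_prod_mk,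
      Prod.mk.injEq]
    constructor
    · rintro (h | ⟨x, y, h, rfl, rfl⟩)
      · exact Or.inl h
      · exact Or.inr h
    · rintro (h | h)
      · exact Or.inl h
      · exact Or.inr ⟨b, a, h, rfl, rfl⟩
  have hfree : ∀ a b, (a, b) ∈ E → Free S p a b := by
    intro a b hab s hs hseg
    exact (hE (a, b) hab).2.2.2 s hs (oseg_iff.2 hseg)
  have hnc : ∀ a b c d z, (a, b) ∈ E → (c, d) ∈ E → OSeg (p a) (p b) z →
      OSeg (p c) (p d) z → (a = c ∧ b = d) ∨ (a = d ∧ b = c) := by
    intro a b c d z h1 h2 h3 h4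
    rcases hcr (a, b) h1 (c, d) h2 z (oseg_iff.2 h3) (oseg_iff.2 h4) with h | h
    · left; simpa using h
    · right; simpa using h
  have hGood : Good S p Q0 := by
    refine ⟨?_, ?_, ?_, ?_, ?_⟩
    · intro a b hab
      rcases (memQ a b).1 hab with h | h
      · exact ⟨(hE _ h).1, (hE _ h).2.1⟩
      · exact ⟨(hE _ h).2.1, (hE _ h).1⟩
    · intro a b hab
      rcases (memQ a b).1 hab with h | h
      · exact (hE _ h).2.2.1
      · exact (hE _ h).2.2.1.symm
    · intro a b hab
      rcases (memQ a b).1 hab with h | h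
      · exact hfree a b h
      · exact fun s hs hseg => hfree b a h s hs hseg.symm
    · intro a b hab
      exact (memQ b a).2 ((memQ a b).1 hab).symm
    · intro a b c d z hab hcd h1 h2
      rcases (memQ a b).1 hab with h | h <;> rcases (memQ c d).1 hcd with h' | h'
      · exact hnc a b c d z h h' h1 h2
      · exact (hnc a b d c z h h' h1 h2.symm).symm
      · rcases hnc b a c d z h h' h1.symm h2 with ⟨k1, k2⟩ | ⟨k1, k2⟩
        · exact Or.inr ⟨k2, k1⟩
        · exact Or.inl ⟨k2, k1⟩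
      · rcases hnc b a d c z h h' h1.symm h2.symm with ⟨k1, k2⟩ | ⟨k1, k2⟩
        · exact Or.inl ⟨k2, k1⟩
        · exact Or.inr ⟨k2, k1⟩
  obtain ⟨M, hM, hsub⟩ := exists_max hinj' hGood
  have hbox : Box S p M A B C := by
    refine ⟨hM, hA, hB, hC, by rw [← orient_eq]; exact hneg, ?_⟩
    intro s hs h1 h2 h3
    have hns : ¬ isV s (A, B, C) := by
      rintro (h | h | h)
      · exact h1 h
      · exact h2 h
      · exact h3 h
    have := hins s hs hns
    simp only [InN, orient_eq] at this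
    exact this
  obtain ⟨h1, h2, h3⟩ := hbox.sph
  refine ⟨faces S p M A B C, h1, hbox.real, h2, ?_⟩
  rintro ⟨a, b⟩ hab
  exact h3 a b (hsub a b ((memQ a b).2 (Or.inl hab)))

end Pool.Agent.H64.Rcr
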