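import Pool.Agent.H64.Rcr.Link

/-! Generic directions, existence of maximal non-crossing sets, Euler's formula. -/

namespace Pool.Agent.H64.Rcr

open Relation

variable {S : Finset ℕ} {p : ℕ → Pt} {M : ℕ → ℕ → Prop} {A B C : ℕ}

theorem exists_gen (hinj : ∀ a ∈ S, ∀ b ∈ S, p a = p b → a = b) : ∃ e, Gen S p e := by
  classical
  let Bd : Finset ℝ := (S ×ˢ S).image
    (fun q => ((p q.2).2 - (p q.1).2) / ((p q.1).1 - (p q.2).1))
  obtain ⟨α, hα⟩ := Infinite.exists_notMem_finset Bd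
  refine ⟨(1, -α), ?_⟩
  intro a ha b hb hab h
  simp only [hh] at h
  by_cases h1 : (p a).1 = (p b).1
  · apply hab
    apply hinj a ha b hb
    ext
    · exact h1
    · rw [h1] at h; linarith
  · apply hα
    rw [Finset.mem_image]
    refine ⟨(a, b), Finset.mem_product.2 ⟨ha, hb⟩, ?_⟩
    have h2 : (p a).1 - (p b).1 ≠ 0 := sub_ne_zero.2 h1
    show ((p b).2 - (p a).2) / ((p a).1 - (p b).1) = α
    rw [div_eq_iff h2]
    linarith

/-- a finite non-crossing set of segments -/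
structure Good (S : Finset ℕ) (p : ℕ → Pt) (Q : Finset (ℕ × ℕ)) : Prop where
  mem : ∀ a b, (a, b) ∈ Q → a ∈ S ∧ b ∈ S
  ne : ∀ a b, (a, b) ∈ Q → a ≠ b
  free : ∀ a b, (a, b) ∈ Q → Free S p a b
  symm : ∀ a b, (a, b) ∈ Q → (b, a) ∈ Q
  nc : ∀ a b c d z, (a, b) ∈ Q → (c, d) ∈ Q → OSeg (p a) (p b) z → OSeg (p c) (p d) z →
    (a = c ∧ b = d) ∨ (a = d ∧ b = c)

theorem exists_max (hinj : ∀ a ∈ S, ∀ b ∈ S, p a = p b → a = b) {Q0 : Finset (ℕ × ℕ)}
    (h0 : Good S p Q0) : ∃ M, MaxNC S p M ∧ ∀ a b, (a, b) ∈ Q0 → M a b := by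
  classical
  let Fam : Finset (Finset (ℕ × ℕ)) := (S ×ˢ S).powerset.filter (fun Q => Good S p Q ∧ Q0 ⊆ Q)
  have memFam : ∀ Q, Q ∈ Fam ↔ Q ⊆ S ×ˢ S ∧ Good S p Q ∧ Q0 ⊆ Q := by
    intro Q; simp only [Fam, Finset.mem_filter, Finset.mem_powerset]
  have sub : ∀ Q, Good S p Q → Q ⊆ S ×ˢ S := by
    rintro Q hQ ⟨a, b⟩ hab
    exact Finset.mem_product.2 (hQ.mem a b hab)
  obtain ⟨Q, hQ, hmax⟩ := Fam.exists_max_image Finset.card ⟨Q0, (memFam Q0).2 ⟨sub Q0 h0, h0,
    Finset.Subset.refl _⟩⟩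
  obtain ⟨-, hG, hsub⟩ := (memFam Q).1 hQ
  refine ⟨fun a b => (a, b) ∈ Q, ⟨hinj, hG.mem, hG.symm, hG.ne, hG.free, hG.nc, ?_⟩,
    fun a b hab => hsub hab⟩
  intro a ha b hb hab hfree hnc
  by_contra hnot
  have hG' : Good S p (insert (a, b) (insert (b, a) Q)) := by
    have hfree' : Free S p b a := fun s hs hseg => hfree s hs hseg.symm
    have memI : ∀ x y, (x, y) ∈ insert (a, b) (insert (b, a) Q) ↔
        (x = a ∧ y = b) ∨ (x = b ∧ y = a) ∨ (x, y) ∈ Q := by
      intro x y; simp only [Finset.mem_insert, Prod.mk.injEq]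
    refine ⟨?_, ?_, ?_, ?_, ?_⟩
    · intro x y hxy
      rcases (memI x y).1 hxy with ⟨h1, h2⟩ | ⟨h1, h2⟩ | h
      · rw [h1, h2]; exact ⟨ha, hb⟩
      · rw [h1, h2]; exact ⟨hb, ha⟩
      · exact hG.mem x y h
    · intro x y hxy
      rcases (memI x y).1 hxy with ⟨h1, h2⟩ | ⟨h1, h2⟩ | h
      · rw [h1, h2]; exact hab
      · rw [h1, h2]; exact hab.symm
      · exact hG.ne x y h
    · intro x y hxy
      rcases (memI x y).1 hxy with ⟨h1, h2⟩ | ⟨h1, h2⟩ | h
      · rw [h1, h2]; exact hfree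
      · rw [h1, h2]; exact hfree'
      · exact hG.free x y h
    · intro x y hxy
      rw [memI]
      rcases (memI x y).1 hxy with ⟨h1, h2⟩ | ⟨h1, h2⟩ | h
      · exact Or.inr (Or.inl ⟨h2, h1⟩)
      · exact Or.inl ⟨h2, h1⟩
      · exact Or.inr (Or.inr (hG.symm x y h))
    · intro x y u v z hxy huv h1 h2
      rcases (memI x y).1 hxy with ⟨e1, e2⟩ | ⟨e1, e2⟩ | h <;>
        rcases (memI u v).1 huv with ⟨f1, f2⟩ | ⟨f1, f2⟩ | h'
      · left; exact ⟨e1.trans f1.symm, e2.trans f2.symm⟩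
      · right; exact ⟨e1.trans f2.symm, e2.trans f1.symm⟩
      · rw [e1, e2] at h1 ⊢; exact hnc u v z h' h1 h2
      · right; exact ⟨e1.trans f2.symm, e2.trans f1.symm⟩
      · left; exact ⟨e1.trans f1.symm, e2.trans f2.symm⟩
      · rw [e1, e2] at h1 ⊢
        rcases hnc u v z h' h1.symm h2 with ⟨k1, k2⟩ | ⟨k1, k2⟩
        · exact Or.inr ⟨k2, k1⟩
        · exact Or.inl ⟨k2, k1⟩
      · rw [f1, f2] at h2 ⊢
        rcases hnc x y z h h2 h1 with ⟨k1, k2⟩ | ⟨k1, k2⟩
        · exact Or.inl ⟨k1.symm, k2.symm⟩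
        · exact Or.inr ⟨k2.symm, k1.symm⟩
      · rw [f1, f2] at h2 ⊢
        rcases hnc x y z h h2.symm h1 with ⟨k1, k2⟩ | ⟨k1, k2⟩
        · exact Or.inr ⟨k1.symm, k2.symm⟩
        · exact Or.inl ⟨k2.symm, k1.symm⟩
      · exact hG.nc x y u v z h h' h1 h2
  have hF' := (memFam _).2 ⟨sub _ hG', hG', hsub.trans
    ((Finset.subset_insert _ _).trans (Finset.subset_insert _ _))⟩
  have hc := hmax _ hF'
  have hlt : Q.card < (insert (a, b) (insert (b, a) Q)).card := by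
    apply Finset.card_lt_card
    refine ⟨(Finset.subset_insert _ _).trans (Finset.subset_insert _ _), fun hs => ?_⟩
    exact hnot (hs (Finset.mem_insert_self _ _))
  omega

/-! ### Euler's formula -/

/-- rotation of a triple -/
def rt (t : ℕ × ℕ × ℕ) : ℕ × ℕ × ℕ := (t.2.1, t.2.2, t.1)

/-- the first corner is the middle one -/
def Mid (p : ℕ → Pt) (e : Pt) (t : ℕ × ℕ × ℕ) : Prop :=
  (hh e (p t.1) < hh e (p t.2.1) ∧ hh e (p t.2.2) < hh e (p t.1)) ∨
  (hh e (p t.2.1) < hh e (p t.1) ∧ hh e (p t.1) < hh e (p t.2.2))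

open Classical in
/-- the set of faces -/
noncomputable def faces (S : Finset ℕ) (p : ℕ → Pt) (M : ℕ → ℕ → Prop) (A B C : ℕ) :
    Finset (ℕ × ℕ × ℕ) :=
  (S ×ˢ S ×ˢ S).filter (fun t => Fc S p M A B C t.1 t.2.1 t.2.2)

theorem Box.mem_faces (h : Box S p M A B C) {a b c : ℕ} :
    (a, b, c) ∈ faces S p M A B C ↔ Fc S p M A B C a b c := by
  simp only [faces, Finset.mem_filter, Finset.mem_product]
  constructor
  · exact fun h => h.2
  · intro hf
    have h1 := h.mx.mem _ _ (h.Fc_M hf)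
    have h2 := h.mx.mem _ _ (h.Fc_M hf.rot)
    exact ⟨⟨h1.1, h1.2, h2.2⟩, hf⟩

theorem Box.rt_mem (h : Box S p M A B C) {t : ℕ × ℕ × ℕ} (ht : t ∈ faces S p M A B C) :
    rt t ∈ faces S p M A B C := by
  obtain ⟨a, b, c⟩ := t
  exact h.mem_faces.2 (h.mem_faces.1 ht).rot

open Classical in
theorem Box.sum_rt (h : Box S p M A B C) (g : ℕ × ℕ × ℕ → ℕ) :
    ∑ t ∈ faces S p M A B C, g (rt t) = ∑ t ∈ faces S p M A B C, g t := by
  refine Finset.sum_nbij' (fun t => rt t) (fun t => rt (rt t)) ?_ ?_ ?_ ?_ ?_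
  · intro t ht; exact h.rt_mem ht
  · intro t ht; exact h.rt_mem (h.rt_mem ht)
  · rintro ⟨a, b, c⟩ _; rfl
  · rintro ⟨a, b, c⟩ _; rfl
  · intro t _; rfl

open Classical in
theorem Box.card_mid (h : Box S p M A B C) {e : Pt} (hg : Gen S p e) :
    (faces S p M A B C).card = 3 * ((faces S p M A B C).filter (fun t => Mid p e t)).card := by
  have hM := h.mx
  have h1 : ((faces S p M A B C).filter (fun t => Mid p e t)).card =
      ∑ t ∈ faces S p M A B C, if Mid p e t then 1 else 0 := by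
    rw [Finset.card_filter]
  have h2 := h.sum_rt (fun t => if Mid p e t then 1 else 0)
  have h3 := h.sum_rt (fun t => if Mid p e (rt t) then 1 else 0)
  have h4 : (faces S p M A B C).card = ∑ t ∈ faces S p M A B C,
      ((if Mid p e t then 1 else 0) + ((if Mid p e (rt t) then 1 else 0) +
        (if Mid p e (rt (rt t)) then 1 else 0))) := by
    rw [Finset.card_eq_sum_ones]
    refine Finset.sum_congr rfl ?_
    rintro ⟨a, b, c⟩ ht
    have hf := h.mem_faces.1 ht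
    have m1 := h.Fc_M hf
    have m2 := h.Fc_M hf.rot
    have m3 := h.Fc_M hf.rot.rot
    have n1 := hg a (hM.mem _ _ m1).1 b (hM.mem _ _ m1).2 (hM.ne _ _ m1)
    have n2 := hg b (hM.mem _ _ m2).1 c (hM.mem _ _ m2).2 (hM.ne _ _ m2)
    have n3 := hg c (hM.mem _ _ m3).1 a (hM.mem _ _ m3).2 (hM.ne _ _ m3)
    simp only [Mid, rt]
    rcases lt_or_gt_of_ne n1 with k1 | k1 <;> rcases lt_or_gt_of_ne n2 with k2 | k2 <;>
      rcases lt_or_gt_of_ne n3 with k3 | k3
    · exfalso; linarith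
    · simp [k1, k2, k3, not_lt.2 k1.le, not_lt.2 k2.le, not_lt.2 k3.le]
    · simp [k1, k2, k3, not_lt.2 k1.le, not_lt.2 k2.le, not_lt.2 k3.le]
    · simp [k1, k2, k3, not_lt.2 k1.le, not_lt.2 k2.le, not_lt.2 k3.le]
    · simp [k1, k2, k3, not_lt.2 k1.le, not_lt.2 k2.le, not_lt.2 k3.le]
    · simp [k1, k2, k3, not_lt.2 k1.le, not_lt.2 k2.le, not_lt.2 k3.le]
    · simp [k1, k2, k3, not_lt.2 k1.le, not_lt.2 k2.le, not_lt.2 k3.le]
    · exfalso; linarith
  rw [h4, Finset.sum_add_distrib, Finset.sum_add_distrib, h1]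
  rw [h3, h2]
  ring

open Classical in
theorem Box.fiber_mid (h : Box S p M A B C) {e : Pt} (hg : Gen S p e) {v : ℕ} (hv : v ∈ S) :
    (((faces S p M A B C).filter (fun t => Mid p e t)).filter (fun t => t.1 = v)).card =
      if (∃ s ∈ S, hh e (p v) < hh e (p s)) ∧ (∃ s ∈ S, hh e (p s) < hh e (p v)) then 2
      else 0 := by
  have hM := h.mx
  split_ifs with hc
  · obtain ⟨⟨s, hs, hs1⟩, ⟨s', hs', hs2⟩⟩ := hc
    obtain ⟨w, hw, hwp⟩ := hM.half hv hs (mv (p v) e) (by rw [D_mv]; linarith)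
    obtain ⟨w', hw', hwp'⟩ := hM.half hv hs' (mv (p v) (ng e)) (by
      rw [D_mv, hh_ng, hh_ng]; linarith)
    rw [D_mv] at hwp
    rw [D_mv] at hwp'
    have u : Up p M e v w := ⟨hw, by linarith⟩
    have u' : Up p M (ng e) v w' := ⟨hw', by linarith⟩
    obtain ⟨L, hL⟩ := hM.exists_last_up u
    obtain ⟨F, hF⟩ := hM.exists_first_up u
    obtain ⟨L', hL'⟩ := hM.exists_last_up u'
    obtain ⟨F', hF'⟩ := hM.exists_first_up u'
    have t1 : Fc S p M A B C v L F' := h.turn hg hL hF'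
    have t2 : Fc S p M A B C v L' F := h.turn hg.ng hL' (by rw [ng_ng]; exact hF)
    have k1 := hL.1.2
    have k2 := hF.1.2
    have k3 := hL'.1.2
    have k4 := hF'.1.2
    rw [hh_ng, hh_ng] at k3 k4
    have heq : ((faces S p M A B C).filter (fun t => Mid p e t)).filter (fun t => t.1 = v) =
        {(v, L, F'), (v, L', F)} := by
      ext ⟨a, b, c⟩
      simp only [Finset.mem_filter, Finset.mem_insert, Finset.mem_singleton, Prod.mk.injEq]
      rw [h.mem_faces]
      constructor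
      · rintro ⟨⟨hf, hm⟩, rfl⟩
        have mab := h.Fc_M hf
        have mac := hM.symm _ _ (h.Fc_M hf.rot.rot)
        rcases hm with ⟨m1, m2⟩ | ⟨m1, m2⟩
        · left
          have hb : Up p M e a b := ⟨mab, m1⟩
          have hc : Up p M (ng e) a c := ⟨mac, by rw [hh_ng, hh_ng]; simpa using m2⟩
          have hbL : b = L := hM.last_uniq (h.last_of_face hf hb hc) hL
          subst hbL
          exact ⟨rfl, rfl, h.uniq hf t1⟩
        · right
          have hb : Up p M (ng e) a b := ⟨mab, by rw [hh_ng, hh_ng]; simpa using m1⟩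
          have hc : Up p M (ng (ng e)) a c := ⟨mac, by rw [ng_ng]; exact m2⟩
          have hbL : b = L' := hM.last_uniq (h.last_of_face hf hb hc) hL'
          subst hbL
          exact ⟨rfl, rfl, h.uniq hf t2⟩
      · rintro (⟨rfl, rfl, rfl⟩ | ⟨rfl, rfl, rfl⟩)
        · exact ⟨⟨t1, Or.inl ⟨k1, by simpa using k4⟩⟩, rfl⟩
        · exact ⟨⟨t2, Or.inr ⟨by simpa using k3, k2⟩⟩, rfl⟩
    rw [heq, Finset.card_pair]
    intro hc
    have : L = L' := by simpa using congrArg (fun t => t.2.1) hc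
    rw [this] at k1
    linarith
  · rw [Finset.card_eq_zero, Finset.filter_eq_empty_iff]
    rintro ⟨a, b, c⟩ ht hav
    apply hc
    obtain ⟨hf, hm⟩ := Finset.mem_filter.1 ht
    have hf' := h.mem_faces.1 hf
    have mab := hM.mem _ _ (h.Fc_M hf')
    have mbc := hM.mem _ _ (h.Fc_M hf'.rot)
    have hav' : a = v := hav
    subst hav'
    rcases hm with ⟨m1, m2⟩ | ⟨m1, m2⟩
    · exact ⟨⟨b, mab.2, m1⟩, ⟨c, mbc.2, m2⟩⟩
    · exact ⟨⟨c, mbc.2, m2⟩, ⟨b, mab.2, m1⟩⟩

theorem Box.euler (h : Box S p M A B C) {e : Pt} (hg : Gen S p e) :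
    (faces S p M A B C).card + 12 = 6 * S.card := by
  classical
  obtain ⟨m, hm, hmin⟩ := S.exists_min_image (fun w => hh e (p w)) ⟨A, h.hA⟩
  obtain ⟨n, hn, hmax⟩ := S.exists_max_image (fun w => hh e (p w)) ⟨A, h.hA⟩
  have hmn : m ≠ n := by
    intro hmn
    have h1 := hmin A h.hA
    have h2 := hmin B h.hB
    have h3 := hmax A h.hA
    have h4 := hmax B h.hB
    have := hg A h.hA B h.hB h.AB
    rw [hmn] at h1 h2
    exact this (by linarith)
  have h1 := h.card_mid hg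
  have h2 : ((faces S p M A B C).filter (fun t => Mid p e t)).card = ∑ v ∈ S,
      (((faces S p M A B C).filter (fun t => Mid p e t)).filter (fun t => t.1 = v)).card := by
    refine Finset.card_eq_sum_card_fiberwise ?_
    rintro ⟨a, b, c⟩ ht
    have ht' := (Finset.mem_filter.1 (Finset.mem_coe.1 ht)).1
    exact Finset.mem_coe.2 (h.mx.mem _ _ (h.Fc_M (h.mem_faces.1 ht'))).1
  have h3 : ∑ v ∈ S,
      (((faces S p M A B C).filter (fun t => Mid p e t)).filter (fun t => t.1 = v)).card =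
      ∑ v ∈ S, if v ∈ (S.erase m).erase n then 2 else 0 := by
    refine Finset.sum_congr rfl ?_
    intro v hv
    rw [h.fiber_mid hg hv]
    have hiff : ((∃ s ∈ S, hh e (p v) < hh e (p s)) ∧ (∃ s ∈ S, hh e (p s) < hh e (p v))) ↔
        v ∈ (S.erase m).erase n := by
      rw [Finset.mem_erase, Finset.mem_erase]
      constructor
      · rintro ⟨⟨s, hs, hs1⟩, ⟨s', hs', hs2⟩⟩
        refine ⟨?_, ?_, hv⟩
        · rintro rfl; have := hmax s hs; linarith
        · rintro rfl; have := hmin s' hs'; linarith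
      · rintro ⟨k1, k2, -⟩
        refine ⟨⟨n, hn, ?_⟩, ⟨m, hm, ?_⟩⟩
        · exact lt_of_le_of_ne (hmax v hv) (hg v hv n hn k1)
        · exact lt_of_le_of_ne (hmin v hv) (hg m hm v hv (Ne.symm k2))
    simp only [hiff]
  have h4 : ∑ v ∈ S, (if v ∈ (S.erase m).erase n then 2 else 0) =
      2 * ((S.erase m).erase n).card := by
    rw [← Finset.sum_filter, Finset.sum_const, smul_eq_mul, mul_comm]
    congr 2
    ext v
    simp only [Finset.mem_filter, Finset.mem_erase]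
    tauto
  have h5 : ((S.erase m).erase n).card + 2 = S.card := by
    rw [Finset.card_erase_of_mem (Finset.mem_erase.2 ⟨Ne.symm hmn, hn⟩),
      Finset.card_erase_of_mem hm]
    have : 2 ≤ S.card := by
      have := Finset.card_le_card (show ({m, n} : Finset ℕ) ⊆ S by
        intro x hx
        simp only [Finset.mem_insert, Finset.mem_singleton] at hx
        rcases hx with rfl | rfl
        · exact hm
        · exact hn)
      rw [Finset.card_pair hmn] at this
      exact this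
    omega
  omega

end Pool.Agent.H64.Rcr
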