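import Pool.Agent.H64.Rcr.Half

/-! The faces of a maximal non-crossing set of segments inside a triangle. -/

namespace Pool.Agent.H64.Rcr

variable {S : Finset ℕ} {p : ℕ → Pt} {M : ℕ → ℕ → Prop}

/-- a maximal non-crossing set inside the (negatively oriented) triangle A B C -/
structure Box (S : Finset ℕ) (p : ℕ → Pt) (M : ℕ → ℕ → Prop) (A B C : ℕ) : Prop where
  mx : MaxNC S p M
  hA : A ∈ S
  hB : B ∈ S
  hC : C ∈ S
  neg : D (p A) (p B) (p C) < 0
  ins : ∀ s ∈ S, s ≠ A → s ≠ B → s ≠ C → D (p A) (p B) (p s) < 0 ∧ D (p B) (p C) (p s) < 0 ∧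
    D (p C) (p A) (p s) < 0

variable {A B C : ℕ}

theorem Box.rot (h : Box S p M A B C) : Box S p M B C A where
  mx := h.mx
  hA := h.hB
  hB := h.hC
  hC := h.hA
  neg := by rw [D_cyc]; exact h.neg
  ins := fun s hs h1 h2 h3 => by
    obtain ⟨k1, k2, k3⟩ := h.ins s hs h3 h1 h2
    exact ⟨k2, k3, k1⟩

theorem Box.AB (h : Box S p M A B C) : A ≠ B := by
  intro e; have := h.neg; rw [e, D_self] at this; exact lt_irrefl _ this

theorem Box.side (h : Box S p M A B C) {s : ℕ} (hs : s ∈ S) : D (p A) (p B) (p s) ≤ 0 ∧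
    (D (p A) (p B) (p s) = 0 → s = A ∨ s = B) := by
  by_cases h1 : s = A
  · rw [h1, D_self']; exact ⟨le_rfl, fun _ => Or.inl rfl⟩
  by_cases h2 : s = B
  · rw [h2, D_self'']; exact ⟨le_rfl, fun _ => Or.inr rfl⟩
  by_cases h3 : s = C
  · rw [h3]; exact ⟨h.neg.le, fun e => absurd e h.neg.ne⟩
  · have := (h.ins s hs h1 h2 h3).1
    exact ⟨this.le, fun e => absurd e this.ne⟩

theorem Box.MAB (h : Box S p M A B C) : M A B := by
  have hM := h.mx
  have hpAB : p A ≠ p B := fun e => h.AB (hM.inj A h.hA B h.hB e)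
  have hfree : Free S p A B := by
    intro s hs hseg
    obtain ⟨t, t0, t1, ht⟩ := id hseg
    rcases (h.side hs).2 hseg.D_eq with e | e
    · rw [e] at ht
      have : ln (p A) (p B) 0 = ln (p A) (p B) t := by rw [← ht, ln_zero]
      have := ln_inj hpAB this
      linarith
    · rw [e] at ht
      have : ln (p A) (p B) 1 = ln (p A) (p B) t := by rw [← ht, ln_one]
      have := ln_inj hpAB this
      linarith
  refine hM.max A h.hA B h.hB h.AB hfree ?_
  intro c d z hcd h1 h2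
  have hcS := (hM.mem _ _ hcd).1
  have hdS := (hM.mem _ _ hcd).2
  have hz := h1.D_eq
  obtain ⟨t, t0, t1, ht⟩ := h2
  rw [ht, D_ln] at hz
  obtain ⟨c1, c2⟩ := h.side hcS
  obtain ⟨d1, d2⟩ := h.side hdS
  have e1 := mul_nonneg (sub_nonneg.2 t1.le) (neg_nonneg.2 c1)
  have e2 := mul_nonneg t0.le (neg_nonneg.2 d1)
  have hc0 : D (p A) (p B) (p c) = 0 := by
    have : (1 - t) * D (p A) (p B) (p c) = 0 := by linarith
    rcases mul_eq_zero.1 this with h' | h'
    · linarith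
    · exact h'
  have hd0 : D (p A) (p B) (p d) = 0 := by
    have : t * D (p A) (p B) (p d) = 0 := by linarith
    rcases mul_eq_zero.1 this with h' | h'
    · linarith
    · exact h'
  have hne := hM.ne _ _ hcd
  rcases c2 hc0 with e | e <;> rcases d2 hd0 with e' | e'
  · exact absurd (e.trans e'.symm) hne
  · left; exact ⟨e.symm, e'.symm⟩
  · right; exact ⟨e'.symm, e.symm⟩
  · exact absurd (e.trans e'.symm) hne

theorem collinear_zero {v y a b c : Pt} (h : v ≠ y) (ha : D v y a = 0) (hb : D v y b = 0)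
    (hc : D v y c = 0) : D a b c = 0 := by
  have h1 : (y.1 - v.1) * D a b c = 0 := by
    simp only [D] at *
    linear_combination (a.1 - c.1) * hb + (b.1 - a.1) * hc + (c.1 - b.1) * ha
  have h2 : (y.2 - v.2) * D a b c = 0 := by
    simp only [D] at *
    linear_combination (a.2 - c.2) * hb + (b.2 - a.2) * hc + (c.2 - b.2) * ha
  rcases mul_eq_zero.1 h1 with h3 | h3
  · rcases mul_eq_zero.1 h2 with h4 | h4
    · exfalso; apply h; ext <;> linarith
    · exact h4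
  · exact h3

/-- v is a vertex of the outer triangle if all points are on one closed side of a line
through v -/
theorem Box.corner (h : Box S p M A B C) {v : ℕ} {e f : Pt} (hv : v ∈ S) (hne : e ≠ f)
    (hev : D e f (p v) = 0) (hall : ∀ s ∈ S, D e f (p s) ≤ 0) : v = A ∨ v = B ∨ v = C := by
  by_contra hcon
  push Not at hcon
  obtain ⟨h1, h2, h3⟩ := h.ins v hv hcon.1 hcon.2.1 hcon.2.2
  have hid : D (p B) (p C) (p v) * D e f (p A) + D (p C) (p A) (p v) * D e f (p B) +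
      D (p A) (p B) (p v) * D e f (p C) = D (p A) (p B) (p C) * D e f (p v) := by
    simp only [D]; ring
  rw [hev, mul_zero] at hid
  have a1 := mul_nonneg (neg_pos.2 h2).le (neg_nonneg.2 (hall A h.hA))
  have a2 := mul_nonneg (neg_pos.2 h3).le (neg_nonneg.2 (hall B h.hB))
  have a3 := mul_nonneg (neg_pos.2 h1).le (neg_nonneg.2 (hall C h.hC))
  have z1 : D e f (p A) = 0 := by
    have : D (p B) (p C) (p v) * D e f (p A) = 0 := by linarith
    rcases mul_eq_zero.1 this with h' | h'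
    · exact absurd h' h2.ne
    · exact h'
  have z2 : D e f (p B) = 0 := by
    have : D (p C) (p A) (p v) * D e f (p B) = 0 := by linarith
    rcases mul_eq_zero.1 this with h' | h'
    · exact absurd h' h3.ne
    · exact h'
  have z3 : D e f (p C) = 0 := by
    have : D (p A) (p B) (p v) * D e f (p C) = 0 := by linarith
    rcases mul_eq_zero.1 this with h' | h'
    · exact absurd h' h1.ne
    · exact h'
  exact h.neg.ne (collinear_zero hne z1 z2 z3)

/-- a dart with nothing on its left is a dart of the outer triangle -/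
theorem Box.outer_dart (h : Box S p M A B C) {v y : ℕ} (hv : v ∈ S) (hy : y ∈ S) (hne : v ≠ y)
    (hall : ∀ s ∈ S, D (p v) (p y) (p s) ≤ 0) :
    (v = A ∧ y = B) ∨ (v = B ∧ y = C) ∨ (v = C ∧ y = A) := by
  have hp : p v ≠ p y := fun e => hne (h.mx.inj v hv y hy e)
  have hn := h.neg
  have k1 := h.corner hv hp (D_self' _ _) hall
  have k2 := h.corner hy hp (D_self'' _ _) hall
  rcases k1 with e | e | e <;> rcases k2 with e' | e' | e'
  · exact absurd (e.trans e'.symm) hne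
  · exact Or.inl ⟨e, e'⟩
  · exfalso
    have := hall B h.hB
    rw [e, e', D_swap'] at this; linarith
  · exfalso
    have := hall C h.hC
    rw [e, e', D_swap] at this; linarith
  · exact absurd (e.trans e'.symm) hne
  · exact Or.inr (Or.inl ⟨e, e'⟩)
  · exact Or.inr (Or.inr ⟨e, e'⟩)
  · exfalso
    have := hall A h.hA
    rw [e, e', D_swap, D_cyc] at this; linarith
  · exact absurd (e.trans e'.symm) hne

/-! ### first and last direction in a half plane -/

theorem dir_id (x E a b : Pt) :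
    ((E.1 - x.1) ^ 2 + (E.2 - x.2) ^ 2) * D x a b =
      ((E.1 - x.1) * (a.1 - x.1) + (E.2 - x.2) * (a.2 - x.2)) * D x E b -
      ((E.1 - x.1) * (b.1 - x.1) + (E.2 - x.2) * (b.2 - x.2)) * D x E a := by
  simp only [D]; ring

/-- cotangent of the angle between x E and x a -/
noncomputable def cot' (x E a : Pt) : ℝ :=
  ((E.1 - x.1) * (a.1 - x.1) + (E.2 - x.2) * (a.2 - x.2)) / D x E a

theorem cot_le {x E a b : Pt} (ha : 0 < D x E a) (hb : 0 < D x E b)
    (h : cot' x E a ≤ cot' x E b) : D x a b ≤ 0 := by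
  unfold cot' at h
  rw [div_le_div_iff₀ ha hb] at h
  have h1 := dir_id x E a b
  have hpos : 0 < (E.1 - x.1) ^ 2 + (E.2 - x.2) ^ 2 := by
    rcases eq_or_lt_of_le (show 0 ≤ (E.1 - x.1) ^ 2 + (E.2 - x.2) ^ 2 by positivity) with h0 | h0
    · exfalso
      have e1 : E.1 - x.1 = 0 := by nlinarith [sq_nonneg (E.1 - x.1), sq_nonneg (E.2 - x.2)]
      have e2 : E.2 - x.2 = 0 := by nlinarith [sq_nonneg (E.1 - x.1), sq_nonneg (E.2 - x.2)]
      simp only [D, e1, e2] at ha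
      linarith
    · exact h0
  by_contra hcon
  push Not at hcon
  have := mul_pos hpos hcon
  linarith

theorem exists_first {x E : Pt} {T : Finset ℕ} (hT : T.Nonempty)
    (h : ∀ w ∈ T, 0 < D x E (p w)) : ∃ z ∈ T, ∀ w ∈ T, D x (p w) (p z) ≤ 0 := by
  obtain ⟨z, hz, hmax⟩ := T.exists_max_image (fun w => cot' x E (p w)) hT
  exact ⟨z, hz, fun w hw => cot_le (h w hw) (h z hz) (hmax w hw)⟩

theorem exists_last {x E : Pt} {T : Finset ℕ} (hT : T.Nonempty)
    (h : ∀ w ∈ T, 0 < D x E (p w)) : ∃ z ∈ T, ∀ w ∈ T, D x (p z) (p w) ≤ 0 := by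
  obtain ⟨z, hz, hmax⟩ := T.exists_min_image (fun w => cot' x E (p w)) hT
  exact ⟨z, hz, fun w hw => cot_le (h z hz) (h w hw) (hmax w hw)⟩

/-! ### faces -/

/-- an empty positively oriented triangle of M -/
def Tr (S : Finset ℕ) (p : ℕ → Pt) (M : ℕ → ℕ → Prop) (a b c : ℕ) : Prop :=
  M a b ∧ M b c ∧ M c a ∧ 0 < D (p a) (p b) (p c) ∧
  ∀ w ∈ S, 0 ≤ D (p a) (p b) (p w) → 0 ≤ D (p b) (p c) (p w) → 0 ≤ D (p c) (p a) (p w) →
    w = a ∨ w = b ∨ w = c

/-- a face -/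
def Fc (S : Finset ℕ) (p : ℕ → Pt) (M : ℕ → ℕ → Prop) (A B C : ℕ) (a b c : ℕ) : Prop :=
  Tr S p M a b c ∨ (a = A ∧ b = B ∧ c = C) ∨ (a = B ∧ b = C ∧ c = A) ∨ (a = C ∧ b = A ∧ c = B)

theorem Tr.rot {a b c : ℕ} (h : Tr S p M a b c) : Tr S p M b c a := by
  obtain ⟨h1, h2, h3, h4, h5⟩ := h
  refine ⟨h2, h3, h1, by rw [D_cyc]; exact h4, ?_⟩
  intro w hw k1 k2 k3
  rcases h5 w hw k3 k1 k2 with h | h | h
  · exact Or.inr (Or.inr h)
  · exact Or.inl h
  · exact Or.inr (Or.inl h)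

theorem Fc.rot {a b c : ℕ} (h : Fc S p M A B C a b c) : Fc S p M A B C b c a := by
  rcases h with h | ⟨h1, h2, h3⟩ | ⟨h1, h2, h3⟩ | ⟨h1, h2, h3⟩
  · exact Or.inl h.rot
  · exact Or.inr (Or.inr (Or.inl ⟨h2, h3, h1⟩))
  · exact Or.inr (Or.inr (Or.inr ⟨h2, h3, h1⟩))
  · exact Or.inr (Or.inl ⟨h2, h3, h1⟩)

theorem Box.Fc_M (h : Box S p M A B C) {a b c : ℕ} (hf : Fc S p M A B C a b c) : M a b := by
  rcases hf with hf | ⟨h1, h2, h3⟩ | ⟨h1, h2, h3⟩ | ⟨h1, h2, h3⟩
  · exact hf.1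
  · rw [h1, h2]; exact h.MAB
  · rw [h1, h2]; exact h.rot.MAB
  · rw [h1, h2]; exact h.rot.rot.MAB

/-- M-neighbours in the same direction are equal -/
theorem MaxNC.dir_inj (hM : MaxNC S p M) {x y z : ℕ} {E : Pt} (hxy : M x y) (hxz : M x z)
    (h1 : 0 < D (p x) E (p y)) (h2 : 0 < D (p x) E (p z)) (h0 : D (p x) (p y) (p z) = 0) :
    y = z := by
  have he := eq_ln_of_ray h1.ne' h0
  set r := D (p x) E (p z) / D (p x) E (p y) with hr
  have hr0 : 0 < r := div_pos h2 h1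
  have hyS := (hM.mem _ _ hxy).2
  have hzS := (hM.mem _ _ hxz).2
  rcases lt_trichotomy r 1 with h | h | h
  · exact absurd ⟨r, hr0, h, he⟩ (hM.free _ _ hxy z hzS)
  · apply hM.inj y hyS z hzS; rw [he, h, ln_one]
  · exfalso
    refine hM.free _ _ hxz y hyS ⟨1 / r, by positivity, ?_, ?_⟩
    · rw [div_lt_one hr0]; exact h
    · rw [he, ln_ln', one_div, inv_mul_cancel₀ hr0.ne', ln_one]

/-- two M-neighbours with nothing between span a face -/
theorem MaxNC.tr_of (hM : MaxNC S p M) {v y z : ℕ} (hy : M v y) (hz : M v z)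
    (hpos : 0 < D (p v) (p y) (p z))
    (hcons : ∀ w, M v w → 0 < D (p v) (p y) (p w) → 0 < D (p z) (p v) (p w) → False) :
    Tr S p M v y z := by
  obtain ⟨h1, h2⟩ := hM.consec hy hz hpos hcons
  exact ⟨hy, h1, hM.symm _ _ hz, hpos, h2⟩

/-- the first M-neighbour on the left of v y -/
theorem MaxNC.next_tr (hM : MaxNC S p M) {v y s : ℕ} (hy : M v y) (hs : s ∈ S)
    (hpos : 0 < D (p v) (p y) (p s)) :
    ∃ z, Tr S p M v y z ∧ ∀ w, M v w → 0 < D (p v) (p y) (p w) → D (p v) (p w) (p z) ≤ 0 := by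
  classical
  have hvS := (hM.mem _ _ hy).1
  obtain ⟨w1, hw1, hw1p⟩ := hM.half hvS hs (p y) hpos
  let T : Finset ℕ := S.filter (fun w => M v w ∧ 0 < D (p v) (p y) (p w))
  have memT : ∀ w, w ∈ T ↔ w ∈ S ∧ M v w ∧ 0 < D (p v) (p y) (p w) := by
    intro w; simp only [T, Finset.mem_filter]
  obtain ⟨z, hz, hfirst⟩ := exists_first (p := p) (x := p v) (E := p y) (T := T)
    ⟨w1, (memT w1).2 ⟨(hM.mem _ _ hw1).2, hw1, hw1p⟩⟩ (fun w hw => ((memT w).1 hw).2.2)
  obtain ⟨zS, hz1, hz2⟩ := (memT z).1 hz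
  refine ⟨z, hM.tr_of hy hz1 hz2 ?_, ?_⟩
  · intro w hw k1 k2
    have := hfirst w ((memT w).2 ⟨(hM.mem _ _ hw).2, hw, k1⟩)
    rw [← D_cyc, ← D_cyc] at k2
    rw [← D_cyc', ← D_cyc'] at this
    have e : D (p z) (p v) (p w) = D (p v) (p w) (p z) := by simp only [D]; ring
    have := hfirst w ((memT w).2 ⟨(hM.mem _ _ hw).2, hw, k1⟩)
    simp only [D] at k2 this
    linarith
  · intro w hw k1
    exact hfirst w ((memT w).2 ⟨(hM.mem _ _ hw).2, hw, k1⟩)

/-- every M-dart has a face on its left -/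
theorem Box.next (h : Box S p M A B C) {v y : ℕ} (hy : M v y) : ∃ z, Fc S p M A B C v y z := by
  by_cases hex : ∃ s ∈ S, 0 < D (p v) (p y) (p s)
  · obtain ⟨s, hs, hpos⟩ := hex
    obtain ⟨z, hz, -⟩ := h.mx.next_tr hy hs hpos
    exact ⟨z, Or.inl hz⟩
  · push Not at hex
    rcases h.outer_dart (h.mx.mem _ _ hy).1 (h.mx.mem _ _ hy).2 (h.mx.ne _ _ hy) hex with
      ⟨h1, h2⟩ | ⟨h1, h2⟩ | ⟨h1, h2⟩
    · exact ⟨C, Or.inr (Or.inl ⟨h1, h2, rfl⟩)⟩
    · exact ⟨A, Or.inr (Or.inr (Or.inl ⟨h1, h2, rfl⟩))⟩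
    · exact ⟨B, Or.inr (Or.inr (Or.inr ⟨h1, h2, rfl⟩))⟩

/-- two empty triangles on the left of the same dart are equal -/
theorem MaxNC.tr_uniq (hM : MaxNC S p M) {a b c d : ℕ} (h1 : Tr S p M a b c)
    (h2 : Tr S p M a b d) : c = d := by
  have core : ∀ c d, Tr S p M a b c → Tr S p M a b d → ¬ 0 < D (p a) (p c) (p d) := by
    rintro c d ⟨-, -, hca, hc, -⟩ ⟨hab, hbd, hda, hd, hemp⟩ hpos
    have hcS := (hM.mem _ _ hca).1
    have hac := hM.symm _ _ hca
    -- c is in the cone at a, not in the triangle, so beyond b d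
    have k3 : D (p d) (p a) (p c) = D (p a) (p c) (p d) := D_cyc' _ _ _
    have hbdc : D (p b) (p d) (p c) < 0 := by
      by_contra hcon
      push Not at hcon
      rcases hemp c hcS hc.le hcon (by rw [k3]; exact hpos.le) with h | h | h
      · rw [h, D_self'] at hc; exact lt_irrefl _ hc
      · rw [h, D_self''] at hc; exact lt_irrefl _ hc
      · rw [h, D_self''] at hpos; exact lt_irrefl _ hpos
    have h5 : D (p b) (p d) (p a) * D (p b) (p d) (p c) < 0 := by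
      rw [D_cyc]
      exact mul_neg_of_pos_of_neg hd hbdc
    have h6 : D (p a) (p c) (p b) * D (p a) (p c) (p d) < 0 := by
      rw [D_swap']
      exact mul_neg_of_neg_of_pos (by linarith) hpos
    obtain ⟨e, e1, e2⟩ := cross_pt h6 h5
    rcases hM.nc _ _ _ _ _ hac hbd e1 e2 with ⟨h7, h8⟩ | ⟨h7, h8⟩
    · rw [h8, D_self''] at hpos; exact lt_irrefl _ hpos
    · exact hM.ne _ _ hda h7.symm
  have n1 := core c d h1 h2
  have n2 := core d c h2 h1
  rw [D_swap'] at n2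
  have h0 : D (p a) (p c) (p d) = 0 := le_antisymm (not_lt.1 n1) (by linarith [not_lt.1 n2])
  exact hM.dir_inj (hM.symm _ _ h1.2.2.1) (hM.symm _ _ h2.2.2.1) h1.2.2.2.1 h2.2.2.2.1 h0

/-- the outer dart A B has no empty triangle on its left -/
theorem Box.not_tr (h : Box S p M A B C) {c : ℕ} : ¬ Tr S p M A B c := by
  rintro ⟨-, -, h3, h4, -⟩
  have := (h.side (h.mx.mem _ _ h3).1).1
  linarith

theorem Box.uniq (h : Box S p M A B C) {a b c d : ℕ} (h1 : Fc S p M A B C a b c)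
    (h2 : Fc S p M A B C a b d) : c = d := by
  have hAB := h.AB
  have hBC := h.rot.AB
  have hCA := h.rot.rot.AB
  have n1 : ∀ c, ¬ Tr S p M A B c := fun c => h.not_tr
  have n2 : ∀ c, ¬ Tr S p M B C c := fun c => h.rot.not_tr
  have n3 : ∀ c, ¬ Tr S p M C A c := fun c => h.rot.rot.not_tr
  rcases h1 with h1 | ⟨e1, e2, e3⟩ | ⟨e1, e2, e3⟩ | ⟨e1, e2, e3⟩
  · rcases h2 with h2 | ⟨e1, e2, e3⟩ | ⟨e1, e2, e3⟩ | ⟨e1, e2, e3⟩
    · exact h.mx.tr_uniq h1 h2
    · rw [e1, e2] at h1; exact absurd h1 (n1 _)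
    · rw [e1, e2] at h1; exact absurd h1 (n2 _)
    · rw [e1, e2] at h1; exact absurd h1 (n3 _)
  · rcases h2 with h2 | ⟨f1, f2, f3⟩ | ⟨f1, f2, f3⟩ | ⟨f1, f2, f3⟩
    · rw [e1, e2] at h2; exact absurd h2 (n1 _)
    · exact e3.trans f3.symm
    · exact absurd (e1.symm.trans f1) hAB
    · exact absurd (f1.symm.trans e1) hCA
  · rcases h2 with h2 | ⟨f1, f2, f3⟩ | ⟨f1, f2, f3⟩ | ⟨f1, f2, f3⟩
    · rw [e1, e2] at h2; exact absurd h2 (n2 _)
    · exact absurd (f1.symm.trans e1) hAB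
    · exact e3.trans f3.symm
    · exact absurd (e1.symm.trans f1) hBC
  · rcases h2 with h2 | ⟨f1, f2, f3⟩ | ⟨f1, f2, f3⟩ | ⟨f1, f2, f3⟩
    · rw [e1, e2] at h2; exact absurd h2 (n3 _)
    · exact absurd (e1.symm.trans f1) hCA
    · exact absurd (f1.symm.trans e1) hBC
    · exact e3.trans f3.symm

end Pool.Agent.H64.Rcr
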