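import Mathlib

/-! Planar geometry for straight line triangulations: signed areas and open segments. -/

namespace Pool.Agent.H64.Rcr

/-- points of the plane -/
abbrev Pt := ℝ × ℝ

/-- twice the signed area of a triangle -/
def D (a b c : Pt) : ℝ := (b.1 - a.1) * (c.2 - a.2) - (b.2 - a.2) * (c.1 - a.1)

/-- the point with parameter t on the line a b -/
def ln (a b : Pt) (t : ℝ) : Pt := (a.1 + t * (b.1 - a.1), a.2 + t * (b.2 - a.2))

/-- e lies on the open segment a b -/
def OSeg (a b e : Pt) : Prop := ∃ t : ℝ, 0 < t ∧ t < 1 ∧ e = ln a b t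

theorem D_ln (a b c d : Pt) (t : ℝ) : D a b (ln c d t) = (1 - t) * D a b c + t * D a b d := by
  simp only [D, ln]; ring

theorem D_cyc (a b c : Pt) : D b c a = D a b c := by simp only [D]; ring

theorem D_cyc' (a b c : Pt) : D c a b = D a b c := by simp only [D]; ring

theorem D_swap (a b c : Pt) : D b a c = - D a b c := by simp only [D]; ring

theorem D_swap' (a b c : Pt) : D a c b = - D a b c := by simp only [D]; ring

theorem D_self (a b : Pt) : D a a b = 0 := by simp only [D]; ring

theorem D_self' (a b : Pt) : D a b a = 0 := by simp only [D]; ring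

theorem D_self'' (a b : Pt) : D a b b = 0 := by simp only [D]; ring

theorem D_sum (a b c q : Pt) : D a b q + D b c q + D c a q = D a b c := by
  simp only [D]; ring

theorem ln_zero (a b : Pt) : ln a b 0 = a := by ext <;> simp [ln]

theorem ln_one (a b : Pt) : ln a b 1 = b := by ext <;> simp [ln]

theorem ln_swap (a b : Pt) (t : ℝ) : ln a b t = ln b a (1 - t) := by
  ext <;> simp only [ln] <;> ring

theorem ln_ln (a b : Pt) (u t : ℝ) : ln (ln a b u) a t = ln a b ((1 - t) * u) := by
  ext <;> simp only [ln] <;> ring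

theorem ln_ln' (a b : Pt) (u s : ℝ) : ln a (ln a b u) s = ln a b (s * u) := by
  ext <;> simp only [ln] <;> ring

theorem ln_ln3 (a b : Pt) (u v s : ℝ) :
    ln (ln a b u) (ln a b v) s = ln a b ((1 - s) * u + s * v) := by
  ext <;> simp only [ln] <;> ring

theorem ln_inj {a b : Pt} (hab : a ≠ b) {s t : ℝ} (h : ln a b s = ln a b t) : s = t := by
  by_contra hst
  apply hab
  have h1 : a.1 + s * (b.1 - a.1) = a.1 + t * (b.1 - a.1) := congrArg Prod.fst h
  have h2 : a.2 + s * (b.2 - a.2) = a.2 + t * (b.2 - a.2) := congrArg Prod.snd h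
  have hst' : s - t ≠ 0 := sub_ne_zero.2 hst
  ext
  · have : (s - t) * (b.1 - a.1) = 0 := by linarith
    rcases mul_eq_zero.1 this with h | h
    · exact absurd h hst'
    · linarith
  · have : (s - t) * (b.2 - a.2) = 0 := by linarith
    rcases mul_eq_zero.1 this with h | h
    · exact absurd h hst'
    · linarith

theorem OSeg.symm {a b e : Pt} (h : OSeg a b e) : OSeg b a e := by
  obtain ⟨t, h0, h1, rfl⟩ := h
  exact ⟨1 - t, by linarith, by linarith, ln_swap _ _ _⟩

theorem OSeg.D_eq {a b e : Pt} (h : OSeg a b e) : D a b e = 0 := by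
  obtain ⟨t, -, -, rfl⟩ := h
  rw [D_ln, D_self', D_self'']; ring

/-- Plücker relation -/
theorem D_pl (x a b c d : Pt) :
    D x a b * D x c d - D x a c * D x b d + D x a d * D x b c = 0 := by
  simp only [D]; ring

theorem ne_of_D {a b c : Pt} (h : D a b c ≠ 0) : a ≠ b ∧ b ≠ c ∧ a ≠ c := by
  refine ⟨?_, ?_, ?_⟩ <;> rintro rfl
  · exact h (D_self _ _)
  · exact h (D_self'' _ _)
  · exact h (D_self' _ _)

/-- a point with D x y e = 0, in terms of its barycentric coordinates -/
theorem eq_ln_of_zero {x y z e : Pt} (hS : D x y z ≠ 0) (h0 : D x y e = 0) :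
    e = ln x y (D z x e / D x y z) := by
  have h0' := h0
  simp only [D] at h0'
  ext
  · simp only [ln]
    field_simp
    simp only [D]
    linear_combination (z.1 - x.1) * h0'
  · simp only [ln]
    field_simp
    simp only [D]
    linear_combination (z.2 - x.2) * h0'

theorem one_sub_bary {x y z e : Pt} (hS : D x y z ≠ 0) (h0 : D x y e = 0) :
    1 - D z x e / D x y z = D y z e / D x y z := by
  have hs := D_sum x y z e
  field_simp
  linarith

/-- points on a common ray -/
theorem eq_ln_of_ray {x y a b : Pt} (ha : D x y a ≠ 0) (h0 : D x a b = 0) :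
    b = ln x a (D x y b / D x y a) := by
  simp only [D] at h0
  ext
  · simp only [ln]
    field_simp
    simp only [D]
    linear_combination (- (y.1 - x.1)) * h0
  · simp only [ln]
    field_simp
    simp only [D]
    linear_combination (- (y.2 - x.2)) * h0

/-- leaving the positive quadrant -/
theorem exit2 {f0 f1 g0 g1 : ℝ} (hf : 0 < f0) (hg : 0 < g0) (h : f1 ≤ 0 ∨ g1 ≤ 0) :
    ∃ t : ℝ, 0 < t ∧ t ≤ 1 ∧
      (((1 - t) * f0 + t * f1 = 0 ∧ 0 ≤ (1 - t) * g0 + t * g1) ∨
       ((1 - t) * g0 + t * g1 = 0 ∧ 0 ≤ (1 - t) * f0 + t * f1)) := by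
  -- the crossing parameter of one function
  have key : ∀ {a0 a1 b0 b1 : ℝ}, 0 < a0 → 0 < b0 → a1 ≤ 0 →
      (b1 ≤ 0 → a0 / (a0 - a1) ≤ b0 / (b0 - b1)) →
      0 < a0 / (a0 - a1) ∧ a0 / (a0 - a1) ≤ 1 ∧
      (1 - a0 / (a0 - a1)) * a0 + a0 / (a0 - a1) * a1 = 0 ∧
      0 ≤ (1 - a0 / (a0 - a1)) * b0 + a0 / (a0 - a1) * b1 := by
    intro a0 a1 b0 b1 ha hb h1 h2
    have hp : 0 < a0 - a1 := by linarith
    have t0 : 0 < a0 / (a0 - a1) := div_pos ha hp
    have t1 : a0 / (a0 - a1) ≤ 1 := by rw [div_le_one hp]; linarith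
    refine ⟨t0, t1, by field_simp; ring, ?_⟩
    rcases le_or_gt b1 0 with hb1 | hb1
    · have h3 := h2 hb1
      have hq : 0 < b0 - b1 := by linarith
      rw [le_div_iff₀ hq] at h3
      linarith
    · have h4 := mul_nonneg (sub_nonneg.2 t1) hb.le
      have h5 := mul_pos t0 hb1
      linarith
  by_cases hc : f1 ≤ 0 ∧ (g1 ≤ 0 → f0 / (f0 - f1) ≤ g0 / (g0 - g1))
  · obtain ⟨k1, k2, k3, k4⟩ := key hf hg hc.1 hc.2
    exact ⟨_, k1, k2, Or.inl ⟨k3, k4⟩⟩
  · have hg1 : g1 ≤ 0 := by
      by_contra hcon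
      push Not at hcon
      exact hc ⟨h.resolve_right (by linarith), fun h' => absurd h' (by linarith)⟩
    have hle : f1 ≤ 0 → g0 / (g0 - g1) ≤ f0 / (f0 - f1) := by
      intro hf1
      by_contra hcon
      push Not at hcon
      exact hc ⟨hf1, fun _ => hcon.le⟩
    obtain ⟨k1, k2, k3, k4⟩ := key hg hf hg1 hle
    exact ⟨_, k1, k2, Or.inr ⟨k3, k4⟩⟩

/-- the crossing point of two properly crossing segments -/
theorem cross_pt {a b c d : Pt} (h1 : D a b c * D a b d < 0) (h2 : D c d a * D c d b < 0) :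
    ∃ e, OSeg a b e ∧ OSeg c d e := by
  have hA0 : D a b c ≠ 0 := by intro h; rw [h] at h1; simp at h1
  have hC0 : D c d a ≠ 0 := by intro h; rw [h] at h2; simp at h2
  have frac : ∀ {u v : ℝ}, u * v < 0 → u ≠ 0 → 0 < u / (u - v) ∧ u / (u - v) < 1 := by
    intro u v huv hu
    rcases lt_or_gt_of_ne hu with hn | hp
    · have hv : 0 < v := by by_contra hb; push Not at hb; nlinarith
      constructor
      · exact div_pos_of_neg_of_neg hn (by linarith)
      · rw [div_lt_one_iff]; right; right; constructor <;> linarith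
    · have hv : v < 0 := by by_contra hb; push Not at hb; nlinarith
      constructor
      · exact div_pos hp (by linarith)
      · rw [div_lt_one (by linarith)]; linarith
  have ht := frac h1 hA0
  have hs := frac h2 hC0
  have hrel : D a b c - D a b d = -(D c d a - D c d b) := by simp only [D]; ring
  have hAB : D a b c - D a b d ≠ 0 := by
    intro h
    rw [h, div_zero] at ht
    exact lt_irrefl _ ht.1
  refine ⟨ln a b (D c d a / (D c d a - D c d b)), ⟨_, hs.1, hs.2, rfl⟩,
    ⟨D a b c / (D a b c - D a b d), ht.1, ht.2, ?_⟩⟩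
  have e1 : D c d a / (D c d a - D c d b) = - D c d a / (D a b c - D a b d) := by
    rw [hrel]; field_simp
  rw [e1]
  ext
  · simp only [ln]
    field_simp
    simp only [D]
    ring
  · simp only [ln]
    field_simp
    simp only [D]
    ring

/-- parameters of a point on an open segment, in terms of a second point -/
theorem conv_pos {t u v : ℝ} (t0 : 0 < t) (t1 : t < 1) (hu : 0 < u) (hv : 0 < v) :
    0 < (1 - t) * u + t * v := by
  have := mul_pos (sub_pos.2 t1) hu
  have := mul_pos t0 hv
  linarith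

end Pool.Agent.H64.Rcr
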