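import Pool.Agent.H64.Rcr.Max

/-! Maximal non-crossing sets of segments: neighbours in every open half plane. -/

namespace Pool.Agent.H64.Rcr

variable {S : Finset ℕ} {p : ℕ → Pt} {M : ℕ → ℕ → Prop}

theorem D_line (c d : Pt) (t u : ℝ) : D (ln c d t) c (ln c d u) = 0 := by
  simp only [D, ln]; ring

/-- the comparison of directions in a cone -/
theorem cone_cmp (x q c w a : Pt) :
    D x q c * D x w a = D x q a * D c x w - D x q w * D c x a := by
  simp only [D]; ring

/-- core of the half plane lemma -/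
theorem MaxNC.half_core (hM : MaxNC S p M) {x w0 c d : ℕ} {s : ℝ} (hx : x ∈ S)
    (hfree : Free S p x w0) (hcd : M c d) (s0 : 0 < s) (s1 : s < 1)
    (hr0 : OSeg (p c) (p d) (ln (p x) (p w0) s))
    (first : ∀ c' d' s', M c' d' → 0 < s' → s' < 1 → OSeg (p c') (p d') (ln (p x) (p w0) s') →
      s ≤ s')
    (hpos : 0 < D (p x) (ln (p x) (p w0) s) (p c)) :
    ∃ w, M x w ∧ 0 < D (p x) (ln (p x) (p w0) s) (p w) ∧ 0 ≤ D (p c) (p x) (p w) := by
  classical
  set q := ln (p x) (p w0) s with hq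
  have hcS := (hM.mem _ _ hcd).1
  have hne : D (p x) q (p c) ≠ 0 := hpos.ne'
  let T : Finset ℕ := S.filter (fun w => 0 ≤ D (p x) q (p w) ∧
    0 ≤ D q (p c) (p w) ∧ 0 ≤ D (p c) (p x) (p w) ∧ w ≠ x)
  have memT : ∀ w, w ∈ T ↔ w ∈ S ∧ 0 ≤ D (p x) q (p w) ∧
    0 ≤ D q (p c) (p w) ∧ 0 ≤ D (p c) (p x) (p w) ∧ w ≠ x := by
    intro w; simp only [T, Finset.mem_filter]
  have hcx : c ≠ x := by rintro rfl; rw [D_self'] at hpos; exact lt_irrefl _ hpos
  have hcT : c ∈ T := by
    rw [memT]
    refine ⟨hcS, hpos.le, by rw [D_self''], by rw [D_self'], hcx⟩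
  have hTpos : ∀ w ∈ T, 0 < D (p x) q (p w) := by
    intro w hw
    obtain ⟨wS, w1, w2, w3, wx⟩ := (memT w).1 hw
    rcases eq_or_lt_of_le w1 with h | h
    · exfalso
      have he := eq_ln_of_zero hne h.symm
      have hb := one_sub_bary hne h.symm
      set τ := D (p c) (p x) (p w) / D (p x) q (p c) with hτ
      have t0 : 0 ≤ τ := by positivity
      have t1 : 0 ≤ D q (p c) (p w) / D (p x) q (p c) := by positivity
      rcases eq_or_lt_of_le t0 with h' | h'
      · rw [← h', ln_zero] at he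
        exact wx (hM.inj w wS x hx he)
      · rw [hq, ln_ln'] at he
        refine hfree w wS ⟨τ * s, mul_pos h' s0, ?_, he⟩
        nlinarith
    · exact h
  -- the smallest angle, then the closest point
  obtain ⟨w1, hw1, hmax1⟩ := T.exists_max_image
    (fun w => D (p c) (p x) (p w) / D (p x) q (p w)) ⟨c, hcT⟩
  let T2 : Finset ℕ := T.filter (fun w => D (p c) (p x) (p w) / D (p x) q (p w) =
    D (p c) (p x) (p w1) / D (p x) q (p w1))
  obtain ⟨w, hw, hmax2⟩ := T2.exists_max_image (fun w => D q (p c) (p w))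
    ⟨w1, Finset.mem_filter.2 ⟨hw1, rfl⟩⟩
  have hwT : w ∈ T := (Finset.mem_filter.1 hw).1
  have hwr := (Finset.mem_filter.1 hw).2
  obtain ⟨wS, g1, g2, g3, wx⟩ := (memT w).1 hwT
  have g1' := hTpos w hwT
  have hang : ∀ a ∈ T, 0 ≤ D (p x) (p w) (p a) := by
    intro a ha
    have h1 := hmax1 a ha
    rw [← hwr, div_le_div_iff₀ (hTpos a ha) g1'] at h1
    have h2 := cone_cmp (p x) q (p c) (p w) (p a)
    have h3 : 0 ≤ D (p x) q (p c) * D (p x) (p w) (p a) := by rw [h2]; linarith
    by_contra hcon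
    push Not at hcon
    have := mul_pos hpos (neg_pos.2 hcon)
    linarith
  have hΔ := D_sum (p x) q (p c) (p w)
  have hΔx : D q (p c) (p x) = D (p x) q (p c) := D_cyc _ _ _
  have onseg : ∀ r : Pt, OSeg (p x) (p w) r → 0 < D (p x) q r ∧ 0 ≤ D (p c) (p x) r ∧
      D q (p c) (p w) < D q (p c) r ∧
      D (p c) (p x) r / D (p x) q r = D (p c) (p x) (p w) / D (p x) q (p w) := by
    rintro r ⟨u, u0, u1, rfl⟩
    rw [D_ln, D_ln, D_ln, D_self', D_self'', hΔx]
    have a1 := mul_pos u0 g1'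
    have a2 := mul_nonneg u0.le g3
    have a3 : 0 < (1 - u) * (D (p x) q (p c) - D q (p c) (p w)) :=
      mul_pos (by linarith) (by linarith)
    refine ⟨by linarith, by linarith, by linarith, ?_⟩
    have hu : u ≠ 0 := u0.ne'
    rw [mul_zero, zero_add, zero_add, mul_div_mul_left _ _ hu]
  have hfree2 : Free S p x w := by
    intro s' hs' hseg
    obtain ⟨b1, b2, b3, b4⟩ := onseg _ hseg
    have hs'x : s' ≠ x := by rintro rfl; rw [D_self'] at b1; exact lt_irrefl _ b1
    have hT : s' ∈ T := (memT s').2 ⟨hs', b1.le, by linarith, b2, hs'x⟩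
    have := hmax2 s' (by
      simp only [T2, Finset.mem_filter]
      exact ⟨hT, b4.trans hwr⟩)
    linarith
  refine ⟨w, ?_, g1', g3⟩
  refine hM.max x hx w wS (Ne.symm wx) hfree2 ?_
  intro a b r hab hr1 hr2
  by_cases hax : a = x
  · subst hax
    left
    exact ⟨rfl, hM.ray hab wS hfree2 (Ne.symm wx) hr1 hr2⟩
  by_cases hbx : b = x
  · subst hbx
    right
    exact ⟨rfl, hM.ray (hM.symm _ _ hab) wS hfree2 (Ne.symm wx) hr1 hr2.symm⟩
  exfalso
  obtain ⟨b1, b3, b2, -⟩ := onseg _ hr1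
  have hDr : D (p x) (p w) r = 0 := hr1.D_eq
  -- the core: an end of the crossing edge on the side of q
  have fin : ∀ a b, M a b → a ≠ x → b ≠ x → OSeg (p a) (p b) r → D (p x) (p w) (p a) < 0 →
      False := by
    intro a b hab hax hbx hr2 hneg
    have haS := (hM.mem _ _ hab).1
    have hout : D (p x) q (p a) ≤ 0 ∨ D q (p c) (p a) ≤ 0 := by
      by_contra hcon
      push Not at hcon
      have h2 := cone_cmp (p x) q (p c) (p w) (p a)
      have h3 : 0 < D (p c) (p x) (p a) := by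
        by_contra hc3
        push Not at hc3
        have e1 := mul_pos hpos (neg_pos.2 hneg)
        have e2 := mul_nonneg hcon.1.le g3
        have e3 := mul_nonneg g1'.le (neg_nonneg.2 hc3)
        nlinarith
      have := hang a ((memT a).2 ⟨haS, hcon.1.le, hcon.2.le, h3.le, hax⟩)
      linarith
    obtain ⟨t, t0, t1, hcase⟩ := exit2 b1 (show 0 < D q (p c) r by linarith) hout
    rw [← D_ln, ← D_ln] at hcase
    set e := ln r (p a) t with he
    have hwe : D (p x) (p w) e < 0 := by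
      rw [he, D_ln, hDr]
      have := mul_pos t0 (neg_pos.2 hneg)
      linarith
    have hDq : D (p x) (p w) q < 0 := by rw [D_swap']; linarith
    have hDc : 0 ≤ D (p x) (p w) (p c) := hang c hcT
    have hseg : t < 1 → OSeg (p a) (p b) e := by
      intro ht1
      obtain ⟨u, u0, u1, hu⟩ := id hr2
      refine ⟨(1 - t) * u, mul_pos (by linarith) u0, ?_, ?_⟩
      · nlinarith
      · rw [he, hu, ln_ln]
    -- an edge equal to c d is impossible
    have hno : ¬ ((a = c ∧ b = d) ∨ (a = d ∧ b = c)) := by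
      rintro (⟨h1, -⟩ | ⟨h1, h2⟩)
      · rw [h1] at hneg; linarith
      · obtain ⟨u, -, -, hu⟩ := hr2.symm
        obtain ⟨v, -, -, hv⟩ := hr0
        rw [h1, h2] at hu
        have : D q (p c) r = 0 := by rw [hv, hu, D_line]
        linarith
    rcases hcase with ⟨h0, h3⟩ | ⟨h0, h3⟩
    · have heq := eq_ln_of_zero hne h0
      have hb := one_sub_bary hne h0
      set τ := D (p c) (p x) e / D (p x) q (p c) with hτ
      have t1' : 0 ≤ D q (p c) e / D (p x) q (p c) := by positivity
      have τ0 : 0 < τ := by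
        by_contra hcon
        push Not at hcon
        rw [heq, D_ln, D_self'] at hwe
        have := mul_nonneg (neg_nonneg.2 hcon) (neg_pos.2 hDq).le
        linarith
      have heq' : e = ln (p x) (p w0) (τ * s) := by rw [heq, hq, ln_ln']
      have hts1 : τ * s < 1 := by nlinarith
      have hts0 : 0 < τ * s := mul_pos τ0 s0
      rcases eq_or_lt_of_le t1 with ht1 | ht1
      · have : p a = e := by rw [he, ht1, ln_one]
        exact hfree a haS ⟨τ * s, hts0, hts1, this.trans heq'⟩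
      · have h5 := first a b (τ * s) hab hts0 hts1 (by rw [← heq']; exact hseg ht1)
        have hτ1 : τ = 1 := by nlinarith
        have heq2 : e = q := by rw [heq, hτ1, ln_one]
        exact hno (hM.nc _ _ _ _ _ hab hcd (hseg ht1) (by rw [heq2]; exact hr0))
    · have hne' : D q (p c) (p x) ≠ 0 := by rw [hΔx]; exact hne
      have heq := eq_ln_of_zero hne' h0
      set σ := D (p x) q e / D q (p c) (p x) with hσ
      have hpos' : 0 < D q (p c) (p x) := by rw [hΔx]; exact hpos
      have σ0 : 0 ≤ σ := by positivity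
      have σ1 : σ < 1 := by
        by_contra hcon
        push Not at hcon
        rw [heq, D_ln] at hwe
        have e1 := mul_nonneg (sub_nonneg.2 hcon) (neg_pos.2 hDq).le
        have e2 := mul_nonneg σ0 hDc
        nlinarith
      obtain ⟨v, v0, v1, hv⟩ := id hr0
      have heq' : e = ln (p c) (p d) ((1 - σ) * v) := by rw [heq, hv, ln_ln]
      have k0 : 0 < (1 - σ) * v := mul_pos (by linarith) v0
      have k1 : (1 - σ) * v < 1 := by nlinarith
      rcases eq_or_lt_of_le t1 with ht1 | ht1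
      · have : p a = e := by rw [he, ht1, ln_one]
        exact hM.free _ _ hcd a haS ⟨_, k0, k1, this.trans heq'⟩
      · exact hno (hM.nc _ _ _ _ _ hab hcd (hseg ht1) ⟨_, k0, k1, heq'⟩)
  obtain ⟨u, u0, u1, hu⟩ := id hr2
  have hconv : 0 = (1 - u) * D (p x) (p w) (p a) + u * D (p x) (p w) (p b) := by
    rw [← hDr, hu, D_ln]
  rcases lt_trichotomy (D (p x) (p w) (p a)) 0 with h | h | h
  · exact fin a b hab hax hbx hr2 h
  · have hb0 : D (p x) (p w) (p b) = 0 := by
      rw [h] at hconv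
      have : u * D (p x) (p w) (p b) = 0 := by linarith
      rcases mul_eq_zero.1 this with h' | h'
      · linarith
      · exact h'
    have hne3 : D (p x) (p w) q ≠ 0 := by rw [D_swap']; exact neg_ne_zero.2 g1'.ne'
    rcases hM.collin hab hx wS hfree2 (Ne.symm wx) hr1 hr2 (eq_ln_of_zero hne3 h)
      (eq_ln_of_zero hne3 hb0) with h' | h'
    · exact hax h'.1.symm
    · exact hbx h'.1.symm
  · refine fin b a (hM.symm _ _ hab) hbx hax hr2.symm ?_
    by_contra hcon; push Not at hcon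
    have e1 := mul_pos (sub_pos.2 u1) h
    have e2 := mul_nonneg u0.le hcon
    linarith

/-- reflection -/
def rf (q : Pt) : Pt := (- q.1, q.2)

theorem D_rf (a b c : Pt) : D (rf a) (rf b) (rf c) = - D a b c := by
  simp only [D, rf]; ring

theorem ln_rf (a b : Pt) (t : ℝ) : ln (rf a) (rf b) t = rf (ln a b t) := by
  ext <;> simp only [ln, rf] <;> ring

theorem rf_rf (a : Pt) : rf (rf a) = a := by simp [rf]

theorem OSeg_rf {a b c : Pt} : OSeg (rf a) (rf b) c ↔ OSeg a b (rf c) := by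
  constructor
  · rintro ⟨t, t0, t1, rfl⟩
    exact ⟨t, t0, t1, by rw [ln_rf, rf_rf]⟩
  · rintro ⟨t, t0, t1, h⟩
    exact ⟨t, t0, t1, by rw [ln_rf, ← h, rf_rf]⟩

theorem free_rf {x w : ℕ} : Free S (fun i => rf (p i)) x w ↔ Free S p x w := by
  unfold Free
  refine forall₂_congr fun s _ => ?_
  rw [OSeg_rf, rf_rf]

theorem MaxNC.rfl' (hM : MaxNC S p M) : MaxNC S (fun i => rf (p i)) M where
  inj := fun a ha b hb h => hM.inj a ha b hb (by
    have := congrArg rf h
    simpa [rf_rf] using this)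
  mem := hM.mem
  symm := hM.symm
  ne := hM.ne
  free := fun a b h => free_rf.2 (hM.free a b h)
  nc := fun a b c d z h1 h2 h3 h4 => hM.nc a b c d (rf z) h1 h2 (OSeg_rf.1 h3) (OSeg_rf.1 h4)
  max := fun a ha b hb hab hf h => hM.max a ha b hb hab (free_rf.1 hf) (fun c d z hcd h1 h2 =>
    h c d (rf z) hcd (OSeg_rf.2 (by rw [rf_rf]; exact h1)) (OSeg_rf.2 (by rw [rf_rf]; exact h2)))

/-- L3: an M-neighbour in every open half plane at x that contains a point of S -/
theorem MaxNC.half (hM : MaxNC S p M) {x w0 : ℕ} (hx : x ∈ S) (hw0 : w0 ∈ S) (E : Pt)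
    (h : 0 < D (p x) E (p w0)) : ∃ w, M x w ∧ 0 < D (p x) E (p w) := by
  classical
  -- closest point on the segment
  let T : Finset ℕ := S.filter (fun w => w = w0 ∨ OSeg (p x) (p w0) (p w))
  obtain ⟨w1, hw1, hmin⟩ := T.exists_min_image (fun w => D (p x) E (p w))
    ⟨w0, Finset.mem_filter.2 ⟨hw0, Or.inl rfl⟩⟩
  obtain ⟨hw1S, hw1c⟩ := Finset.mem_filter.1 hw1
  have hw1ln : ∃ v : ℝ, 0 < v ∧ v ≤ 1 ∧ p w1 = ln (p x) (p w0) v := by
    rcases hw1c with h1 | ⟨v, v0, v1, hv⟩
    · exact ⟨1, one_pos, le_rfl, by rw [h1, ln_one]⟩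
    · exact ⟨v, v0, v1.le, hv⟩
  obtain ⟨v, v0, v1, hv⟩ := hw1ln
  have hE1 : 0 < D (p x) E (p w1) := by
    rw [hv, D_ln, D_self']; have := mul_pos v0 h; linarith
  have hxw1 : x ≠ w1 := by rintro rfl; rw [D_self'] at hE1; exact lt_irrefl _ hE1
  have hfree : Free S p x w1 := by
    rintro s hs ⟨u, u0, u1, hu⟩
    have h1 : p s = ln (p x) (p w0) (u * v) := by rw [hu, hv, ln_ln']
    have h2 := hmin s (by
      simp only [T, Finset.mem_filter]
      exact ⟨hs, Or.inr ⟨u * v, mul_pos u0 v0, by nlinarith, h1⟩⟩)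
    rw [hu, D_ln, D_self'] at h2
    have := mul_pos (sub_pos.2 u1) hE1
    linarith
  by_cases hMw : M x w1
  · exact ⟨w1, hMw, hE1⟩
  have hneE : D (p x) (p w1) E ≠ 0 := by rw [D_swap']; exact neg_ne_zero.2 hE1.ne'
  -- M-edges meeting the open segment are transversal
  have trans : ∀ c d s, M c d → 0 < s → s < 1 → OSeg (p c) (p d) (ln (p x) (p w1) s) →
      D (p x) (p w1) (p c) ≠ 0 ∧ D (p c) (p d) (p x) - D (p c) (p d) (p w1) ≠ 0 := by
    intro c d s hcd s0 s1 hseg
    obtain ⟨t, t0, t1, ht⟩ := id hseg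
    have h0 : (1 - t) * D (p x) (p w1) (p c) + t * D (p x) (p w1) (p d) = 0 := by
      rw [← D_ln, ← ht, D_ln, D_self', D_self'']; ring
    have h1 : D (p x) (p w1) (p c) ≠ 0 := by
      intro hc0
      have hd0 : D (p x) (p w1) (p d) = 0 := by
        rw [hc0] at h0
        have : t * D (p x) (p w1) (p d) = 0 := by linarith
        rcases mul_eq_zero.1 this with h' | h'
        · linarith
        · exact h'
      rcases hM.collin hcd hx hw1S hfree hxw1 ⟨s, s0, s1, rfl⟩ hseg (eq_ln_of_zero hneE hc0)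
        (eq_ln_of_zero hneE hd0) with h' | h'
      · rw [← h'.1, ← h'.2] at hcd; exact hMw hcd
      · rw [← h'.1, ← h'.2] at hcd; exact hMw (hM.symm _ _ hcd)
    refine ⟨h1, ?_⟩
    have hrel : D (p c) (p d) (p x) - D (p c) (p d) (p w1) =
        -(D (p x) (p w1) (p c) - D (p x) (p w1) (p d)) := by simp only [D]; ring
    rw [hrel]
    intro h2
    have h3 : D (p x) (p w1) (p c) = D (p x) (p w1) (p d) := by linarith
    rw [← h3] at h0
    apply h1; linarith
  have hex : ∃ c d s, M c d ∧ 0 < s ∧ s < 1 ∧ OSeg (p c) (p d) (ln (p x) (p w1) s) := by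
    by_contra hcon
    apply hMw
    refine hM.max x hx w1 hw1S hxw1 hfree ?_
    rintro c d z hcd ⟨s, s0, s1, hs⟩ hz
    exact absurd ⟨c, d, s, hcd, s0, s1, by rw [← hs]; exact hz⟩ hcon
  -- the first one
  let Q : Finset (ℕ × ℕ) := (S ×ˢ S).filter (fun e => M e.1 e.2 ∧
    ∃ s : ℝ, 0 < s ∧ s < 1 ∧ OSeg (p e.1) (p e.2) (ln (p x) (p w1) s))
  let f : ℕ × ℕ → ℝ := fun e =>
    D (p e.1) (p e.2) (p x) / (D (p e.1) (p e.2) (p x) - D (p e.1) (p e.2) (p w1))
  have hf : ∀ c d s, M c d → 0 < s → s < 1 → OSeg (p c) (p d) (ln (p x) (p w1) s) →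
      f (c, d) = s := by
    intro c d s hcd s0 s1 hseg
    have h1 := (trans c d s hcd s0 s1 hseg).2
    have h2 := hseg.D_eq
    rw [D_ln] at h2
    show D (p c) (p d) (p x) / (D (p c) (p d) (p x) - D (p c) (p d) (p w1)) = s
    rw [div_eq_iff h1]; linarith
  obtain ⟨c0, d0, s0', h0, h0a, h0b, h0c⟩ := hex
  obtain ⟨⟨c, d⟩, hcdQ, hminQ⟩ := Q.exists_min_image f ⟨(c0, d0), by
    simp only [Q, Finset.mem_filter, Finset.mem_product]
    exact ⟨hM.mem _ _ h0, h0, s0', h0a, h0b, h0c⟩⟩
  simp only [Q, Finset.mem_filter, Finset.mem_product] at hcdQ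
  obtain ⟨-, hcd, s, s0, s1, hseg⟩ := hcdQ
  have first : ∀ c' d' s', M c' d' → 0 < s' → s' < 1 →
      OSeg (p c') (p d') (ln (p x) (p w1) s') → s ≤ s' := by
    intro c' d' s' h1 h2 h3 h4
    have h5 := hminQ (c', d') (by
      simp only [Q, Finset.mem_filter, Finset.mem_product]
      exact ⟨hM.mem _ _ h1, h1, s', h2, h3, h4⟩)
    rw [hf c d s hcd s0 s1 hseg, hf c' d' s' h1 h2 h3 h4] at h5
    exact h5
  -- one end is in the half plane
  have main : ∀ c d, M c d → OSeg (p c) (p d) (ln (p x) (p w1) s) → 0 < D (p x) E (p c) →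
      ∃ w, M x w ∧ 0 < D (p x) E (p w) := by
    intro c d hcd hseg hc
    have htr := (trans c d s hcd s0 s1 hseg).1
    set q := ln (p x) (p w1) s with hq
    have hqE : 0 < D (p x) E q := by
      rw [hq, D_ln, D_self']; have := mul_pos s0 hE1; linarith
    have hqc : D (p x) q (p c) = s * D (p x) (p w1) (p c) := by
      rw [hq]; simp only [D, ln]; ring
    have hpl := D_pl (p x) E q (p c)
    rcases lt_or_gt_of_ne htr with hneg | hpos
    · -- mirror
      have hM' := hM.rfl'
      have hq' : ln (rf (p x)) (rf (p w1)) s = rf q := by rw [ln_rf]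
      obtain ⟨w, hw, k1, k2⟩ := hM'.half_core (x := x) (w0 := w1) (c := c) (d := d) (s := s) hx
        (free_rf.2 hfree) hcd s0 s1
        (by rw [hq']; exact OSeg_rf.2 (by rw [rf_rf]; exact hseg))
        (by
          intro c' d' s' h1 h2 h3 h4
          refine first c' d' s' h1 h2 h3 ?_
          rw [ln_rf] at h4
          have := OSeg_rf.1 h4
          rwa [rf_rf] at this)
        (by
          rw [hq', D_rf, hqc]
          have := mul_pos s0 (neg_pos.2 hneg)
          linarith)
      rw [hq', D_rf] at k1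
      rw [D_rf] at k2
      refine ⟨w, hw, ?_⟩
      have h1 := hpl (p w)
      have h2 : D (p x) (p c) (p w) = - D (p c) (p x) (p w) := D_swap _ _ _
      rw [h2, hqc] at h1
      have e1 := mul_pos hc k1
      have e2 := mul_nonneg hqE.le k2
      have e3 := mul_pos s0 (neg_pos.2 hneg)
      by_contra hcon
      push Not at hcon
      have e4 := mul_nonneg (neg_nonneg.2 hcon) e3.le
      nlinarith
    · obtain ⟨w, hw, k1, k2⟩ := hM.half_core (x := x) (w0 := w1) (c := c) (d := d) (s := s) hx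
        hfree hcd s0 s1 hseg first (by rw [← hq, hqc]; exact mul_pos s0 hpos)
      rw [← hq] at k1
      refine ⟨w, hw, ?_⟩
      have h1 := hpl (p w)
      have h2 : D (p x) (p c) (p w) = - D (p c) (p x) (p w) := D_swap _ _ _
      rw [h2, hqc] at h1
      have e1 := mul_pos hc k1
      have e2 := mul_nonneg hqE.le k2
      have e3 := mul_pos s0 hpos
      by_contra hcon
      push Not at hcon
      have e4 := mul_nonneg (neg_nonneg.2 hcon) e3.le
      nlinarith
  obtain ⟨t, t0, t1, ht⟩ := id hseg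
  have hqE : 0 < D (p x) E (ln (p x) (p w1) s) := by
    rw [D_ln, D_self']; have := mul_pos s0 hE1; linarith
  rw [ht, D_ln] at hqE
  by_cases hc : 0 < D (p x) E (p c)
  · exact main c d hcd hseg hc
  · push Not at hc
    refine main d c (hM.symm _ _ hcd) hseg.symm ?_
    by_contra hcon; push Not at hcon
    have e1 := mul_nonneg (sub_nonneg.2 t1.le) (neg_nonneg.2 hc)
    have e2 := mul_nonneg t0.le (neg_nonneg.2 hcon)
    linarith

end Pool.Agent.H64.Rcr
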