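import Pool.Agent.H64.Rcr.Face

/-! Links of the vertices and connectivity, by a generic direction. -/

namespace Pool.Agent.H64.Rcr

open Relation

variable {S : Finset ℕ} {p : ℕ → Pt} {M : ℕ → ℕ → Prop} {A B C : ℕ}

/-- the height with respect to the direction e -/
def hh (e q : Pt) : ℝ := e.1 * q.2 - e.2 * q.1

/-- v moved in direction e -/
def mv (v e : Pt) : Pt := (v.1 + e.1, v.2 + e.2)

/-- the opposite direction -/
def ng (e : Pt) : Pt := (- e.1, - e.2)

theorem D_mv (v e q : Pt) : D v (mv v e) q = hh e q - hh e v := by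
  simp only [D, mv, hh]; ring

theorem hh_ng (e q : Pt) : hh (ng e) q = - hh e q := by
  simp only [hh, ng]; ring

/-- all points have different heights -/
def Gen (S : Finset ℕ) (p : ℕ → Pt) (e : Pt) : Prop :=
  ∀ a ∈ S, ∀ b ∈ S, a ≠ b → hh e (p a) ≠ hh e (p b)

theorem Gen.ng {e : Pt} (h : Gen S p e) : Gen S p (ng e) := by
  intro a ha b hb hab hc
  rw [hh_ng, hh_ng] at hc
  exact h a ha b hb hab (by linarith)

/-- no M-neighbour in the open cone of an empty triangle -/
theorem MaxNC.tr_cone (hM : MaxNC S p M) {a b c d : ℕ} (h2 : Tr S p M a b d) (hac : M a c)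
    (hc : 0 < D (p a) (p b) (p c)) (hpos : 0 < D (p a) (p c) (p d)) : False := by
  obtain ⟨hab, hbd, hda, hd, hemp⟩ := h2
  have hcS := (hM.mem _ _ hac).2
  have k3 : D (p d) (p a) (p c) = D (p a) (p c) (p d) := D_cyc' _ _ _
  have hbdc : D (p b) (p d) (p c) < 0 := by
    by_contra hcon
    push Not at hcon
    rcases hemp c hcS hc.le hcon (by rw [k3]; exact hpos.le) with h | h | h
    · rw [h, D_self'] at hc; exact lt_irrefl _ hc
    · rw [h, D_self''] at hc; exact lt_irrefl _ hc
    · rw [h, D_self''] at hpos; exact lt_irrefl _ hpos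
  have h5 : D (p b) (p d) (p a) * D (p b) (p d) (p c) < 0 := by
    rw [D_cyc]
    exact mul_neg_of_pos_of_neg hd hbdc
  have h6 : D (p a) (p c) (p b) * D (p a) (p c) (p d) < 0 := by
    rw [D_swap']
    exact mul_neg_of_neg_of_pos (by linarith) hpos
  obtain ⟨e, e1, e2⟩ := cross_pt h6 h5
  rcases hM.nc _ _ _ _ _ hac hbd e1 e2 with ⟨h7, h8⟩ | ⟨h7, h8⟩
  · rw [h8, D_self''] at hpos; exact lt_irrefl _ hpos
  · exact hM.ne _ _ hda h7.symm

/-- upper M-neighbours -/
def Up (p : ℕ → Pt) (M : ℕ → ℕ → Prop) (e : Pt) (v w : ℕ) : Prop :=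
  M v w ∧ hh e (p v) < hh e (p w)

/-- y is a last upper neighbour -/
def Last (p : ℕ → Pt) (M : ℕ → ℕ → Prop) (e : Pt) (v y : ℕ) : Prop :=
  Up p M e v y ∧ ∀ w, Up p M e v w → D (p v) (p y) (p w) ≤ 0

/-- y is a first upper neighbour -/
def First (p : ℕ → Pt) (M : ℕ → ℕ → Prop) (e : Pt) (v y : ℕ) : Prop :=
  Up p M e v y ∧ ∀ w, Up p M e v w → D (p v) (p w) (p y) ≤ 0

theorem Up.pos {e : Pt} {v w : ℕ} (h : Up p M e v w) : 0 < D (p v) (mv (p v) e) (p w) := by
  rw [D_mv]; have := h.2; linarith

theorem Up.neg {e : Pt} {v w : ℕ} (h : Up p M (ng e) v w) :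
    D (p v) (mv (p v) e) (p w) < 0 := by
  rw [D_mv]; have := h.2; rw [hh_ng, hh_ng] at this; linarith

theorem up_or {e : Pt} (hM : MaxNC S p M) (hg : Gen S p e) {v w : ℕ} (h : M v w) :
    Up p M e v w ∨ Up p M (ng e) v w := by
  have h1 := hg v (hM.mem _ _ h).1 w (hM.mem _ _ h).2 (hM.ne _ _ h)
  rcases lt_or_gt_of_ne h1 with h2 | h2
  · exact Or.inl ⟨h, h2⟩
  · refine Or.inr ⟨h, ?_⟩
    rw [hh_ng, hh_ng]; linarith

theorem MaxNC.exists_last_up (hM : MaxNC S p M) {e : Pt} {v w : ℕ} (h : Up p M e v w) :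
    ∃ y, Last p M e v y := by
  classical
  let T : Finset ℕ := S.filter (fun w => Up p M e v w)
  have memT : ∀ w, w ∈ T ↔ w ∈ S ∧ Up p M e v w := by intro w; simp only [T, Finset.mem_filter]
  obtain ⟨y, hy, hl⟩ := exists_last (p := p) (x := p v) (E := mv (p v) e) (T := T)
    ⟨w, (memT w).2 ⟨(hM.mem _ _ h.1).2, h⟩⟩ (fun w hw => ((memT w).1 hw).2.pos)
  exact ⟨y, ((memT y).1 hy).2, fun w hw => hl w ((memT w).2 ⟨(hM.mem _ _ hw.1).2, hw⟩)⟩

theorem MaxNC.exists_first_up (hM : MaxNC S p M) {e : Pt} {v w : ℕ} (h : Up p M e v w) :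
    ∃ y, First p M e v y := by
  classical
  let T : Finset ℕ := S.filter (fun w => Up p M e v w)
  have memT : ∀ w, w ∈ T ↔ w ∈ S ∧ Up p M e v w := by intro w; simp only [T, Finset.mem_filter]
  obtain ⟨y, hy, hl⟩ := exists_first (p := p) (x := p v) (E := mv (p v) e) (T := T)
    ⟨w, (memT w).2 ⟨(hM.mem _ _ h.1).2, h⟩⟩ (fun w hw => ((memT w).1 hw).2.pos)
  exact ⟨y, ((memT y).1 hy).2, fun w hw => hl w ((memT w).2 ⟨(hM.mem _ _ hw.1).2, hw⟩)⟩

theorem MaxNC.last_uniq (hM : MaxNC S p M) {e : Pt} {v y z : ℕ} (hy : Last p M e v y)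
    (hz : Last p M e v z) : y = z := by
  have h1 := hy.2 z hz.1
  have h2 := hz.2 y hy.1
  rw [D_swap'] at h2
  exact hM.dir_inj hy.1.1 hz.1.1 hy.1.pos hz.1.pos (le_antisymm h1 (by linarith))

theorem MaxNC.first_uniq (hM : MaxNC S p M) {e : Pt} {v y z : ℕ} (hy : First p M e v y)
    (hz : First p M e v z) : y = z := by
  have h1 := hy.2 z hz.1
  have h2 := hz.2 y hy.1
  rw [D_swap'] at h1
  exact hM.dir_inj hy.1.1 hz.1.1 hy.1.pos hz.1.pos (le_antisymm h2 (by linarith))

/-- from the last upper to the first lower neighbour -/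
theorem Box.turn (h : Box S p M A B C) {e : Pt} (hg : Gen S p e) {v L F : ℕ}
    (hL : Last p M e v L) (hF : First p M (ng e) v F) : Fc S p M A B C v L F := by
  have hM := h.mx
  have hvS := (hM.mem _ _ hL.1.1).1
  have hLS := (hM.mem _ _ hL.1.1).2
  have hFS := (hM.mem _ _ hF.1.1).2
  by_cases hpos : 0 < D (p v) (p L) (p F)
  · left
    refine hM.tr_of hL.1.1 hF.1.1 hpos ?_
    intro w hw k1 k2
    rcases up_or hM hg hw with hu | hd
    · have := hL.2 w hu; linarith
    · have := hF.2 w hd
      have e1 : D (p F) (p v) (p w) = D (p v) (p w) (p F) := by simp only [D]; ring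
      linarith
  · push Not at hpos
    have uL := hL.1.pos
    have dF := hF.1.neg
    have all1 : ∀ s ∈ S, D (p v) (p L) (p s) ≤ 0 := by
      intro s hs
      by_contra hcon
      push Not at hcon
      obtain ⟨w, hw, k⟩ := hM.half hvS hs (p L) hcon
      rcases up_or hM hg hw with hu | hd
      · have := hL.2 w hu; linarith
      · have k1 := hF.2 w hd
        have k2 := hd.neg
        have hpl := D_pl (p v) (mv (p v) e) (p L) (p w) (p F)
        have e1 := mul_nonneg uL.le (neg_nonneg.2 k1)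
        have e2 := mul_nonneg (neg_pos.2 k2).le (neg_nonneg.2 hpos)
        have e3 := mul_pos (neg_pos.2 dF) k
        nlinarith
    have all2 : ∀ s ∈ S, D (p F) (p v) (p s) ≤ 0 := by
      intro s hs
      by_contra hcon
      push Not at hcon
      -- reflect F in v
      set E : Pt := (2 * (p v).1 - (p F).1, 2 * (p v).2 - (p F).2) with hE
      have hDE : ∀ q, D (p v) E q = D (p F) (p v) q := by
        intro q; simp only [D, hE]; ring
      obtain ⟨w, hw, k⟩ := hM.half hvS hs E (by rw [hDE]; exact hcon)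
      rw [hDE] at k
      have k' : 0 < D (p v) (p w) (p F) := by
        have e1 : D (p F) (p v) (p w) = D (p v) (p w) (p F) := by simp only [D]; ring
        linarith
      rcases up_or hM hg hw with hu | hd
      · have k1 := hL.2 w hu
        have k2 := hu.pos
        have hpl := D_pl (p v) (mv (p v) e) (p L) (p w) (p F)
        have e1 := mul_pos uL k'
        have e2 := mul_nonneg k2.le (neg_nonneg.2 hpos)
        have e3 := mul_nonneg (neg_pos.2 dF).le (neg_nonneg.2 k1)
        nlinarith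
      · have := hF.2 w hd; linarith
    have o1 := h.outer_dart hvS hLS (hM.ne _ _ hL.1.1) all1
    have o2 := h.outer_dart hFS hvS (hM.ne _ _ hF.1.1).symm all2
    have hAB := h.AB
    have hBC := h.rot.AB
    have hCA := h.rot.rot.AB
    right
    rcases o1 with ⟨a1, a2⟩ | ⟨a1, a2⟩ | ⟨a1, a2⟩ <;>
      rcases o2 with ⟨b1, b2⟩ | ⟨b1, b2⟩ | ⟨b1, b2⟩
    · exact absurd (a1.symm.trans b2) hAB
    · exact absurd (b2.symm.trans a1) hCA
    · exact Or.inl ⟨a1, a2, b1⟩
    · exact Or.inr (Or.inl ⟨a1, a2, b1⟩)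
    · exact absurd (a1.symm.trans b2) hBC
    · exact absurd (b2.symm.trans a1) hAB
    · exact absurd (b2.symm.trans a1) hBC
    · exact Or.inr (Or.inr ⟨a1, a2, b1⟩)
    · exact absurd (a1.symm.trans b2) hCA

/-- the upper end of a face that goes from an upper to a lower neighbour is the last one -/
theorem Box.last_of_face (h : Box S p M A B C) {e : Pt} {v b c : ℕ}
    (hf : Fc S p M A B C v b c) (hb : Up p M e v b) (hc : Up p M (ng e) v c) :
    Last p M e v b := by
  have hM := h.mx
  refine ⟨hb, ?_⟩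
  intro w hw
  have hwS := (hM.mem _ _ hw.1).2
  rcases hf with hf | ⟨h1, h2, h3⟩ | ⟨h1, h2, h3⟩ | ⟨h1, h2, h3⟩
  · by_contra hcon
    push Not at hcon
    have hbc := hf.2.2.2.1
    have hpl := D_pl (p v) (mv (p v) e) (p b) (p w) (p c)
    have e1 := mul_pos hw.pos hbc
    have e2 := mul_pos (neg_pos.2 hc.neg) hcon
    refine hM.tr_cone hf hw.1 hcon ?_
    by_contra hcon2
    push Not at hcon2
    have e3 := mul_nonneg hb.pos.le (neg_nonneg.2 hcon2)
    nlinarith
  · rw [h1, h2]; exact (h.side hwS).1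
  · rw [h1, h2]; exact (h.rot.side hwS).1
  · rw [h1, h2]; exact (h.rot.rot.side hwS).1

/-- the upper end of a face that goes from a lower to an upper neighbour is the first one -/
theorem Box.first_of_face (h : Box S p M A B C) {e : Pt} {v b c : ℕ}
    (hf : Fc S p M A B C v b c) (hb : Up p M (ng e) v b) (hc : Up p M e v c) :
    First p M e v c := by
  have hM := h.mx
  refine ⟨hc, ?_⟩
  intro w hw
  have hwS := (hM.mem _ _ hw.1).2
  have hswap : D (p v) (p w) (p c) = D (p c) (p v) (p w) := by simp only [D]; ring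
  rcases hf with hf | ⟨h1, h2, h3⟩ | ⟨h1, h2, h3⟩ | ⟨h1, h2, h3⟩
  · by_contra hcon
    push Not at hcon
    have hbc := hf.2.2.2.1
    have hpl := D_pl (p v) (mv (p v) e) (p b) (p w) (p c)
    have e1 := mul_pos hw.pos hbc
    have e2 := mul_pos (neg_pos.2 hb.neg) hcon
    refine hM.tr_cone hf hw.1 ?_ hcon
    by_contra hcon2
    push Not at hcon2
    have e3 := mul_nonneg hc.pos.le (neg_nonneg.2 hcon2)
    nlinarith
  · rw [hswap, h1, h3]; exact (h.rot.rot.side hwS).1
  · rw [hswap, h1, h3]; exact (h.side hwS).1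
  · rw [hswap, h1, h3]; exact (h.rot.side hwS).1

/-- an upper neighbour reaches every later upper neighbour -/
theorem Box.reach (h : Box S p M A B C) {e : Pt} {v : ℕ} : ∀ (n : ℕ) (y z : ℕ),
    Up p M e v y → Up p M e v z → 0 < D (p v) (p y) (p z) →
    Set.ncard {w | w ∈ S ∧ M v w ∧ 0 < D (p v) (p y) (p w) ∧ 0 < D (p v) (p w) (p z)} ≤ n →
    ReflTransGen (fun a b => Fc S p M A B C v a b) y z := by
  have hM := h.mx
  intro n
  induction n with
  | zero =>
    intro y z hy hz hpos hcard
    obtain ⟨z', hz', hfirst⟩ := hM.next_tr hy.1 (hM.mem _ _ hz.1).2 hpos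
    have h1 := hfirst z hz.1 hpos
    have hMz' := hM.symm _ _ hz'.2.2.1
    rcases eq_or_lt_of_le h1 with h2 | h2
    · have : z = z' := hM.dir_inj hz.1 hMz' hpos hz'.2.2.2.1 h2
      rw [this]; exact ReflTransGen.single (Or.inl hz')
    · exfalso
      have hfin : {w | w ∈ S ∧ M v w ∧ 0 < D (p v) (p y) (p w) ∧
          0 < D (p v) (p w) (p z)}.Finite := S.finite_toSet.subset (fun w hw => hw.1)
      have h3 := (Set.ncard_eq_zero hfin).1 (Nat.le_zero.1 hcard)
      have : z' ∈ {w | w ∈ S ∧ M v w ∧ 0 < D (p v) (p y) (p w) ∧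
          0 < D (p v) (p w) (p z)} := by
        refine ⟨(hM.mem _ _ hMz').2, hMz', hz'.2.2.2.1, ?_⟩
        rw [D_swap']; linarith
      rw [h3] at this; exact this
  | succ n ih =>
    intro y z hy hz hpos hcard
    obtain ⟨z', hz', hfirst⟩ := hM.next_tr hy.1 (hM.mem _ _ hz.1).2 hpos
    have h1 := hfirst z hz.1 hpos
    have hMz' := hM.symm _ _ hz'.2.2.1
    rcases eq_or_lt_of_le h1 with h2 | h2
    · have : z = z' := hM.dir_inj hz.1 hMz' hpos hz'.2.2.2.1 h2
      rw [this]; exact ReflTransGen.single (Or.inl hz')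
    · have hz'z : 0 < D (p v) (p z') (p z) := by rw [D_swap']; linarith
      have hyz' := hz'.2.2.2.1
      have hup : Up p M e v z' := by
        refine ⟨hMz', ?_⟩
        have hpl := D_pl (p v) (mv (p v) e) (p y) (p z') (p z)
        have e1 := mul_pos hy.pos hz'z
        have e2 := mul_pos hz.pos hyz'
        have : 0 < D (p v) (mv (p v) e) (p z') := by
          by_contra hcon
          push Not at hcon
          have := mul_nonneg (neg_nonneg.2 hcon) hpos.le
          nlinarith
        rw [D_mv] at this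
        linarith
      refine ReflTransGen.head (Or.inl hz') (ih z' z hup hz hz'z ?_)
      have hfin : {w | w ∈ S ∧ M v w ∧ 0 < D (p v) (p y) (p w) ∧
          0 < D (p v) (p w) (p z)}.Finite := S.finite_toSet.subset (fun w hw => hw.1)
      have hlt : {w | w ∈ S ∧ M v w ∧ 0 < D (p v) (p z') (p w) ∧ 0 < D (p v) (p w) (p z)} ⊂
          {w | w ∈ S ∧ M v w ∧ 0 < D (p v) (p y) (p w) ∧ 0 < D (p v) (p w) (p z)} := by
        refine ⟨?_, ?_⟩
        · rintro w ⟨k1, k2, k3, k4⟩
          refine ⟨k1, k2, ?_, k4⟩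
          have hpl := D_pl (p v) (p y) (p z') (p w) (p z)
          have e1 := mul_pos hyz' k4
          have e2 := mul_pos hpos k3
          by_contra hcon
          push Not at hcon
          have := mul_nonneg (neg_nonneg.2 hcon) hz'z.le
          nlinarith
        · intro hsub
          have := hsub (show z' ∈ _ from ⟨(hM.mem _ _ hMz').2, hMz', hyz', hz'z⟩)
          have := this.2.2.1
          rw [D_self''] at this
          exact lt_irrefl _ this
      have := Set.ncard_lt_ncard hlt hfin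
      omega

theorem Box.reach' (h : Box S p M A B C) {e : Pt} {v y z : ℕ} (hy : Up p M e v y)
    (hz : Up p M e v z) (h0 : 0 ≤ D (p v) (p y) (p z)) :
    ReflTransGen (fun a b => Fc S p M A B C v a b) y z := by
  rcases eq_or_lt_of_le h0 with h1 | h1
  · have := h.mx.dir_inj hy.1 hz.1 hy.pos hz.pos h1.symm
    rw [this]
  · exact h.reach _ y z hy hz h1 le_rfl

theorem ng_ng (e : Pt) : ng (ng e) = e := by simp [ng]

/-- the last upper neighbour reaches the first upper neighbour -/
theorem Box.loop (h : Box S p M A B C) {e : Pt} (hg : Gen S p e) {v L F : ℕ}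
    (hL : Last p M e v L) (hF : First p M e v F) :
    ReflTransGen (fun a b => Fc S p M A B C v a b) L F := by
  have hM := h.mx
  by_cases hex : ∃ w, Up p M (ng e) v w
  · obtain ⟨w, hw⟩ := hex
    obtain ⟨L', hL'⟩ := hM.exists_last_up hw
    obtain ⟨F', hF'⟩ := hM.exists_first_up hw
    have t1 : Fc S p M A B C v L F' := h.turn hg hL hF'
    have t2 : ReflTransGen (fun a b => Fc S p M A B C v a b) F' L' := by
      refine h.reach' hF'.1 hL'.1 ?_
      have := hF'.2 L' hL'.1
      rw [D_swap'] at this; linarith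
    have t3 : Fc S p M A B C v L' F := h.turn hg.ng hL' (by rw [ng_ng]; exact hF)
    exact (ReflTransGen.head t1 t2).tail t3
  · push Not at hex
    obtain ⟨z, hz⟩ := h.next hL.1.1
    have hvz : M v z := hM.symm _ _ (h.Fc_M hz.rot.rot)
    have hzup : Up p M e v z := (up_or hM hg hvz).resolve_right (hex z)
    have hno : ¬ Tr S p M v L z := by
      intro ht
      have := hL.2 z hzup
      have := ht.2.2.2.1
      linarith
    have hzF : First p M e v z := by
      refine ⟨hzup, ?_⟩
      intro w hw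
      have hwS := (hM.mem _ _ hw.1).2
      have hswap : D (p v) (p w) (p z) = D (p z) (p v) (p w) := by simp only [D]; ring
      rcases hz with hz | ⟨h1, h2, h3⟩ | ⟨h1, h2, h3⟩ | ⟨h1, h2, h3⟩
      · exact absurd hz hno
      · rw [hswap, h1, h3]; exact (h.rot.rot.side hwS).1
      · rw [hswap, h1, h3]; exact (h.side hwS).1
      · rw [hswap, h1, h3]; exact (h.rot.side hwS).1
    rw [← hM.first_uniq hzF hF]
    exact ReflTransGen.single hz

/-- the link of a vertex is connected -/
theorem Box.link (h : Box S p M A B C) {e : Pt} (hg : Gen S p e) {v y z : ℕ}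
    (hy : M v y) (hz : M v z) : ReflTransGen (fun a b => Fc S p M A B C v a b) y z := by
  have hM := h.mx
  have same : ∀ (e : Pt), Gen S p e → ∀ y z, Up p M e v y → Up p M e v z →
      ReflTransGen (fun a b => Fc S p M A B C v a b) y z := by
    intro e hg y z hy hz
    obtain ⟨L, hL⟩ := hM.exists_last_up hy
    obtain ⟨F, hF⟩ := hM.exists_first_up hy
    have t1 := h.reach' hy hL.1 (by have := hL.2 y hy; rw [D_swap'] at this; linarith)
    have t2 := h.reach' hF.1 hz (by have := hF.2 z hz; rw [D_swap'] at this; linarith)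
    exact (t1.trans (h.loop hg hL hF)).trans t2
  have diff : ∀ (e : Pt), Gen S p e → ∀ y z, Up p M e v y → Up p M (ng e) v z →
      ReflTransGen (fun a b => Fc S p M A B C v a b) y z := by
    intro e hg y z hy hz
    obtain ⟨L, hL⟩ := hM.exists_last_up hy
    obtain ⟨F, hF⟩ := hM.exists_first_up hz
    have t1 := h.reach' hy hL.1 (by have := hL.2 y hy; rw [D_swap'] at this; linarith)
    have t2 := h.reach' hF.1 hz (by have := hF.2 z hz; rw [D_swap'] at this; linarith)
    exact (t1.tail (h.turn hg hL hF)).trans t2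
  rcases up_or hM hg hy with h1 | h1 <;> rcases up_or hM hg hz with h2 | h2
  · exact same e hg y z h1 h2
  · exact diff e hg y z h1 h2
  · exact diff (ng e) hg.ng y z h1 (by rw [ng_ng]; exact h2)
  · exact same (ng e) hg.ng y z h1 h2

/-- every point is connected to every other point -/
theorem Box.conn (h : Box S p M A B C) {e : Pt} (hg : Gen S p e) {a b : ℕ} (ha : a ∈ S)
    (hb : b ∈ S) : ReflTransGen M a b := by
  have hM := h.mx
  obtain ⟨m, hm, hmin⟩ := S.exists_min_image (fun w => hh e (p w)) ⟨a, ha⟩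
  have key : ∀ n : ℕ, ∀ a ∈ S, Set.ncard {w | w ∈ S ∧ hh e (p w) < hh e (p a)} ≤ n →
      ReflTransGen M a m := by
    intro n
    induction n with
    | zero =>
      intro a ha hc
      have hfin : {w | w ∈ S ∧ hh e (p w) < hh e (p a)}.Finite :=
        S.finite_toSet.subset (fun w hw => hw.1)
      have h0 := (Set.ncard_eq_zero hfin).1 (Nat.le_zero.1 hc)
      by_cases hma : m = a
      · rw [hma]
      · exfalso
        have h1 := hmin a ha
        have h2 := hg m hm a ha hma
        have : m ∈ {w | w ∈ S ∧ hh e (p w) < hh e (p a)} := ⟨hm, lt_of_le_of_ne h1 h2⟩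
        rw [h0] at this; exact this
    | succ n ih =>
      intro a ha hc
      by_cases hma : m = a
      · rw [hma]
      · have h1 := hmin a ha
        have h2 := hg m hm a ha hma
        have h3 : hh e (p m) < hh e (p a) := lt_of_le_of_ne h1 h2
        obtain ⟨w, hw, hwp⟩ := hM.half ha hm (mv (p a) (ng e)) (by
          rw [D_mv, hh_ng, hh_ng]; linarith)
        rw [D_mv, hh_ng, hh_ng] at hwp
        refine ReflTransGen.head hw (ih w (hM.mem _ _ hw).2 ?_)
        have hfin : {w | w ∈ S ∧ hh e (p w) < hh e (p a)}.Finite :=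
          S.finite_toSet.subset (fun w hw => hw.1)
        have hlt : {u | u ∈ S ∧ hh e (p u) < hh e (p w)} ⊂
            {w | w ∈ S ∧ hh e (p w) < hh e (p a)} := by
          refine ⟨fun u hu => ⟨hu.1, by have := hu.2; linarith⟩, fun hsub => ?_⟩
          have := (hsub (show w ∈ _ from ⟨(hM.mem _ _ hw).2, by linarith⟩)).2
          exact lt_irrefl _ this
        have := Set.ncard_lt_ncard hlt hfin
        omega
  have k1 := key _ a ha le_rfl
  have k2 := key _ b hb le_rfl
  have hsymm : ∀ {x y : ℕ}, ReflTransGen M x y → ReflTransGen M y x := by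
    intro x y hxy
    induction hxy with
    | refl => exact ReflTransGen.refl
    | tail _ h2 ih => exact ReflTransGen.head (hM.symm _ _ h2) ih
  exact k1.trans (hsymm k2)

end Pool.Agent.H64.Rcr
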