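import Pool.Agent.H64.Rcr.Geo

/-! Maximal non-crossing sets of segments: the lemmas on consecutive neighbours. -/

namespace Pool.Agent.H64.Rcr

/-- no point of `S` in the open segment -/
def Free (S : Finset ℕ) (p : ℕ → Pt) (a b : ℕ) : Prop := ∀ s ∈ S, ¬ OSeg (p a) (p b) (p s)

/-- a maximal non-crossing set of segments between the points of `S` -/
structure MaxNC (S : Finset ℕ) (p : ℕ → Pt) (M : ℕ → ℕ → Prop) : Prop where
  inj : ∀ a ∈ S, ∀ b ∈ S, p a = p b → a = b
  mem : ∀ a b, M a b → a ∈ S ∧ b ∈ S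
  symm : ∀ a b, M a b → M b a
  ne : ∀ a b, M a b → a ≠ b
  free : ∀ a b, M a b → Free S p a b
  nc : ∀ a b c d z, M a b → M c d → OSeg (p a) (p b) z → OSeg (p c) (p d) z →
    (a = c ∧ b = d) ∨ (a = d ∧ b = c)
  max : ∀ a ∈ S, ∀ b ∈ S, a ≠ b → Free S p a b →
    (∀ c d z, M c d → OSeg (p a) (p b) z → OSeg (p c) (p d) z →
      (a = c ∧ b = d) ∨ (a = d ∧ b = c)) → M a b

variable {S : Finset ℕ} {p : ℕ → Pt} {M : ℕ → ℕ → Prop}

/-- an M-edge from x and a free segment from x with a common inner point -/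
theorem MaxNC.ray (hM : MaxNC S p M) {x w d : ℕ} {r : Pt} (hxd : M x d) (hw : w ∈ S)
    (hfree : Free S p x w) (hxw : x ≠ w) (h1 : OSeg (p x) (p w) r)
    (h2 : OSeg (p x) (p d) r) : w = d := by
  obtain ⟨s, s0, s1, hs⟩ := h1
  obtain ⟨t, t0, t1, ht⟩ := h2
  have hxS := (hM.mem _ _ hxd).1
  have hdS := (hM.mem _ _ hxd).2
  -- p d = ln x w (s / t), p w = ln x d (t / s)
  have e1 : p d = ln (p x) (p w) (s / t) := by
    have h1 : (p x).1 + t * ((p d).1 - (p x).1) = (p x).1 + s * ((p w).1 - (p x).1) := by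
      have := ht.symm.trans hs; exact congrArg Prod.fst this
    have h2 : (p x).2 + t * ((p d).2 - (p x).2) = (p x).2 + s * ((p w).2 - (p x).2) := by
      have := ht.symm.trans hs; exact congrArg Prod.snd this
    ext
    · simp only [ln]; field_simp; linarith
    · simp only [ln]; field_simp; linarith
  have e2 : p w = ln (p x) (p d) (t / s) := by
    have h1 : (p x).1 + t * ((p d).1 - (p x).1) = (p x).1 + s * ((p w).1 - (p x).1) := by
      have := ht.symm.trans hs; exact congrArg Prod.fst this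
    have h2 : (p x).2 + t * ((p d).2 - (p x).2) = (p x).2 + s * ((p w).2 - (p x).2) := by
      have := ht.symm.trans hs; exact congrArg Prod.snd this
    ext
    · simp only [ln]; field_simp; linarith
    · simp only [ln]; field_simp; linarith
  rcases lt_trichotomy s t with h | h | h
  · exact absurd ⟨s / t, div_pos s0 t0, (div_lt_one t0).2 h, e1⟩ (hfree d hdS)
  · apply hM.inj w hw d hdS
    rw [e2, h, div_self (by linarith), ln_one]
  · exact absurd ⟨t / s, div_pos t0 s0, (div_lt_one s0).2 h, e2⟩ (hM.free _ _ hxd w hw)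

/-- an M-edge c d and a free segment y z on the same line with a common inner point -/
theorem MaxNC.collin (hM : MaxNC S p M) {y z c d : ℕ} {r : Pt} (hcd : M c d) (hy : y ∈ S)
    (hz : z ∈ S) (hfree : Free S p y z) (hyz : y ≠ z) (h1 : OSeg (p y) (p z) r)
    (h2 : OSeg (p c) (p d) r) {a b : ℝ} (hc : p c = ln (p y) (p z) a)
    (hd : p d = ln (p y) (p z) b) : (y = c ∧ z = d) ∨ (y = d ∧ z = c) := by
  have hcS := (hM.mem _ _ hcd).1
  have hdS := (hM.mem _ _ hcd).2
  have hpyz : p y ≠ p z := fun h => hyz (hM.inj y hy z hz h)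
  obtain ⟨s, s0, s1, hs⟩ := h1
  obtain ⟨t, t0, t1, ht⟩ := h2
  have hab : a ≠ b := by
    rintro rfl
    exact hM.ne _ _ hcd (hM.inj c hcS d hdS (hc.trans hd.symm))
  have hst : s = (1 - t) * a + t * b := by
    apply ln_inj hpyz
    rw [← hs, ht, hc, hd, ln_ln3]
  -- ends are not strictly inside
  have hca : ¬ (0 < a ∧ a < 1) := fun h => hfree c hcS ⟨a, h.1, h.2, hc⟩
  have hdb : ¬ (0 < b ∧ b < 1) := fun h => hfree d hdS ⟨b, h.1, h.2, hd⟩
  have hy' : ∀ u : ℝ, 0 < u → u < 1 → (1 - u) * a + u * b ≠ 0 := by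
    intro u u0 u1 h
    refine hM.free _ _ hcd y hy ⟨u, u0, u1, ?_⟩
    rw [hc, hd, ln_ln3, h, ln_zero]
  have hz' : ∀ u : ℝ, 0 < u → u < 1 → (1 - u) * a + u * b ≠ 1 := by
    intro u u0 u1 h
    refine hM.free _ _ hcd z hz ⟨u, u0, u1, ?_⟩
    rw [hc, hd, ln_ln3, h, ln_one]
  -- a ≠ b and value between: 
  have mid : ∀ v : ℝ, (a < v ∧ v < b) ∨ (b < v ∧ v < a) →
      ∃ u : ℝ, 0 < u ∧ u < 1 ∧ (1 - u) * a + u * b = v := by
    intro v hv
    have hba : b - a ≠ 0 := sub_ne_zero.2 (Ne.symm hab)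
    refine ⟨(v - a) / (b - a), ?_, ?_, by field_simp; ring⟩
    · rcases hv with h | h
      · exact div_pos (by linarith) (by linarith)
      · exact div_pos_of_neg_of_neg (by linarith) (by linarith)
    · rcases hv with h | h
      · rw [div_lt_one (by linarith)]; linarith
      · rw [div_lt_one_iff]; right; right; constructor <;> linarith
  rcases lt_or_gt_of_ne hab with h | h
  · have has : a < s := by rw [hst]; nlinarith
    have hsb : s < b := by rw [hst]; nlinarith
    have ha0 : a ≤ 0 := by by_contra hcon; push Not at hcon; exact hca ⟨hcon, by linarith⟩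
    have hb1 : 1 ≤ b := by by_contra hcon; push Not at hcon; exact hdb ⟨by linarith, hcon⟩
    have ha : a = 0 := by
      by_contra hne
      have : a < 0 := lt_of_le_of_ne ha0 hne
      obtain ⟨u, u0, u1, hu⟩ := mid 0 (Or.inl ⟨this, by linarith⟩)
      exact hy' u u0 u1 hu
    have hb : b = 1 := by
      by_contra hne
      have : 1 < b := lt_of_le_of_ne hb1 (Ne.symm hne)
      obtain ⟨u, u0, u1, hu⟩ := mid 1 (Or.inl ⟨by linarith, this⟩)
      exact hz' u u0 u1 hu
    left
    constructor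
    · apply hM.inj y hy c hcS; rw [hc, ha, ln_zero]
    · apply hM.inj z hz d hdS; rw [hd, hb, ln_one]
  · have hbs : b < s := by rw [hst]; nlinarith
    have hsa : s < a := by rw [hst]; nlinarith
    have hb0 : b ≤ 0 := by by_contra hcon; push Not at hcon; exact hdb ⟨hcon, by linarith⟩
    have ha1 : 1 ≤ a := by by_contra hcon; push Not at hcon; exact hca ⟨by linarith, hcon⟩
    have hb : b = 0 := by
      by_contra hne
      have : b < 0 := lt_of_le_of_ne hb0 hne
      obtain ⟨u, u0, u1, hu⟩ := mid 0 (Or.inr ⟨this, by linarith⟩)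
      exact hy' u u0 u1 hu
    have ha : a = 1 := by
      by_contra hne
      have : 1 < a := lt_of_le_of_ne ha1 (Ne.symm hne)
      obtain ⟨u, u0, u1, hu⟩ := mid 1 (Or.inr ⟨by linarith, this⟩)
      exact hz' u u0 u1 hu
    right
    constructor
    · apply hM.inj y hy d hdS; rw [hd, hb, ln_zero]
    · apply hM.inj z hz c hcS; rw [hc, ha, ln_one]

/-- an M-edge cannot leave the cone of two M-edges inside the triangle -/
theorem MaxNC.blocked (hM : MaxNC S p M) {x y z c d : ℕ} {r : Pt}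
    (hxy : M x y) (hxz : M x z) (hS : 0 < D (p x) (p y) (p z)) (hcd : M c d) (ncx : c ≠ x)
    (hr : OSeg (p c) (p d) r) (r1 : 0 < D (p x) (p y) r) (r3 : 0 < D (p z) (p x) r)
    (r2 : 0 ≤ D (p y) (p z) r) (c2 : 0 < D (p y) (p z) (p c))
    (hout : D (p x) (p y) (p c) ≤ 0 ∨ D (p z) (p x) (p c) ≤ 0) : False := by
  have hcS := (hM.mem _ _ hcd).1
  have hxS := (hM.mem _ _ hxy).1
  -- the core for one side
  have core : ∀ {y' : ℕ} {t s : ℝ}, M x y' → (∀ w, OSeg (p x) (p y') w → w ≠ r) → 0 < t → t ≤ 1 →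
      0 ≤ s → s < 1 → ln r (p c) t = ln (p x) (p y') s → False := by
    intro y' t s hxy' hnr t0 t1 s0 s1 he
    rcases eq_or_lt_of_le t1 with ht1 | ht1
    · -- e = c
      rw [ht1, ln_one] at he
      rcases eq_or_lt_of_le s0 with hs0 | hs0
      · rw [← hs0, ln_zero] at he
        exact ncx (hM.inj c hcS x hxS he)
      · exact hM.free _ _ hxy' c hcS ⟨s, hs0, s1, he⟩
    · obtain ⟨u, u0, u1, hu⟩ := id hr
      have hseg : OSeg (p c) (p d) (ln r (p c) t) := by
        refine ⟨(1 - t) * u, mul_pos (by linarith) u0, ?_, ?_⟩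
        · nlinarith
        · rw [hu, ln_ln]
      rcases eq_or_lt_of_le s0 with hs0 | hs0
      · rw [he, ← hs0, ln_zero] at hseg
        exact hM.free _ _ hcd x hxS hseg
      · rw [he] at hseg
        have hseg' : OSeg (p x) (p y') (ln (p x) (p y') s) := ⟨s, hs0, s1, rfl⟩
        rcases hM.nc _ _ _ _ _ hxy' hcd hseg' hseg with h | h
        · exact ncx h.1.symm
        · rw [← h.1, ← h.2] at hr
          exact hnr r hr.symm rfl
  have hS' : D (p x) (p y) (p z) ≠ 0 := hS.ne'
  have hS2 : D (p x) (p z) (p y) ≠ 0 := by rw [D_swap']; exact neg_ne_zero.2 hS'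
  obtain ⟨t, t0, t1, hcase⟩ := exit2 r1 r3 hout
  have hpos : 0 < D (p y) (p z) (ln r (p c) t) := by
    rw [D_ln]
    have h1 := mul_nonneg (sub_nonneg.2 t1) r2
    have h2 := mul_pos t0 c2
    linarith
  rcases hcase with ⟨h0, h3⟩ | ⟨h0, h3⟩
  · rw [← D_ln] at h0 h3
    have he := eq_ln_of_zero hS' h0
    have hb := one_sub_bary hS' h0
    have s0 : 0 ≤ D (p z) (p x) (ln r (p c) t) / D (p x) (p y) (p z) := by positivity
    have s1 : 0 < D (p y) (p z) (ln r (p c) t) / D (p x) (p y) (p z) := by positivity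
    refine core hxy ?_ t0 t1 s0 (by linarith) he
    intro w hw hwr
    rw [← hwr, hw.D_eq] at r1
    exact lt_irrefl _ r1
  · rw [← D_ln] at h0 h3
    have h0' : D (p x) (p z) (ln r (p c) t) = 0 := by rw [D_swap]; linarith
    have he := eq_ln_of_zero hS2 h0'
    have hb := one_sub_bary hS2 h0'
    rw [D_swap (p x) (p y) (ln r (p c) t)] at he hb
    rw [D_swap' (p x) (p y) (p z)] at he hb
    rw [D_swap (p y) (p z) (ln r (p c) t)] at hb
    rw [neg_div_neg_eq] at he hb
    rw [neg_div_neg_eq] at hb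
    have s0 : 0 ≤ D (p x) (p y) (ln r (p c) t) / D (p x) (p y) (p z) := by positivity
    have s1 : 0 < D (p y) (p z) (ln r (p c) t) / D (p x) (p y) (p z) := by positivity
    refine core hxz ?_ t0 t1 s0 (by linarith) he
    intro w hw hwr
    rw [← hwr, D_swap, hw.D_eq, neg_zero] at r3
    exact lt_irrefl _ r3

/-- L1: a point in the triangle with two sides in M gives an M-neighbour in the cone -/
theorem MaxNC.vis (hM : MaxNC S p M) {x y z w0 : ℕ}
    (hxy : M x y) (hxz : M x z) (hS : 0 < D (p x) (p y) (p z)) (hw0 : w0 ∈ S)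
    (h1 : 0 < D (p x) (p y) (p w0)) (h3 : 0 < D (p z) (p x) (p w0))
    (h2 : 0 ≤ D (p y) (p z) (p w0)) :
    ∃ w, M x w ∧ 0 < D (p x) (p y) (p w) ∧ 0 < D (p z) (p x) (p w) := by
  classical
  have hxS := (hM.mem _ _ hxy).1
  let T : Finset ℕ := S.filter (fun w => 0 < D (p x) (p y) (p w) ∧
    0 < D (p z) (p x) (p w) ∧ 0 ≤ D (p y) (p z) (p w))
  obtain ⟨w, hw, hmax⟩ := T.exists_max_image (fun w => D (p y) (p z) (p w))
    ⟨w0, by simp [T, hw0, h1, h2, h3]⟩
  have hw' : w ∈ S ∧ 0 < D (p x) (p y) (p w) ∧ 0 < D (p z) (p x) (p w) ∧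
    0 ≤ D (p y) (p z) (p w) := by simpa [T] using hw
  obtain ⟨wS, w1, w3, w2⟩ := hw'
  refine ⟨w, ?_, w1, w3⟩
  have hxw : x ≠ w := by rintro rfl; rw [D_self'] at w1; exact lt_irrefl _ w1
  have hsum := D_sum (p x) (p y) (p z) (p w)
  have hSx : D (p y) (p z) (p x) = D (p x) (p y) (p z) := D_cyc _ _ _
  -- points on the open segment x w
  have onseg : ∀ r : Pt, OSeg (p x) (p w) r → 0 < D (p x) (p y) r ∧ 0 < D (p z) (p x) r ∧
      D (p y) (p z) (p w) < D (p y) (p z) r := by
    rintro r ⟨s, s0, s1, rfl⟩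
    rw [D_ln, D_ln, D_ln, D_self', D_self'', hSx]
    have a1 := mul_pos s0 w1
    have a2 := mul_pos s0 w3
    have a3 : 0 < (1 - s) * (D (p x) (p y) (p z) - D (p y) (p z) (p w)) :=
      mul_pos (by linarith) (by linarith)
    exact ⟨by linarith, by linarith, by linarith⟩
  have hfree : Free S p x w := by
    intro s hs hseg
    obtain ⟨b1, b2, b3⟩ := onseg _ hseg
    have := hmax s (by simp only [T, Finset.mem_filter]; exact ⟨hs, b1, b2, by linarith⟩)
    linarith
  refine hM.max x hxS w wS hxw hfree ?_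
  intro c d r hcd hr1 hr2
  by_cases hcx : c = x
  · subst hcx
    left
    exact ⟨rfl, hM.ray hcd wS hfree hxw hr1 hr2⟩
  by_cases hdx : d = x
  · subst hdx
    right
    exact ⟨rfl, hM.ray (hM.symm _ _ hcd) wS hfree hxw hr1 hr2.symm⟩
  exfalso
  obtain ⟨b1, b3, b2⟩ := onseg _ hr1
  obtain ⟨t, t0, t1, ht⟩ := id hr2
  have hconv : D (p y) (p z) r = (1 - t) * D (p y) (p z) (p c) + t * D (p y) (p z) (p d) := by
    rw [ht, D_ln]
  have fin : ∀ c d, M c d → c ≠ x → OSeg (p c) (p d) r →
      D (p y) (p z) r ≤ D (p y) (p z) (p c) → False := by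
    intro c d hcd hcx hr2 hle
    have hcS := (hM.mem _ _ hcd).1
    refine hM.blocked hxy hxz hS hcd hcx hr2 b1 b3 (by linarith) (by linarith) ?_
    by_contra hcon
    push Not at hcon
    have := hmax c (by simp only [T, Finset.mem_filter]; exact ⟨hcS, hcon.1, hcon.2, by linarith⟩)
    linarith
  rcases le_or_gt (D (p y) (p z) r) (D (p y) (p z) (p c)) with hle | hlt
  · exact fin c d hcd hcx hr2 hle
  · refine fin d c (hM.symm _ _ hcd) hdx hr2.symm ?_
    by_contra hcon
    push Not at hcon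
    nlinarith [mul_pos (sub_pos.2 t1) (sub_pos.2 hlt), mul_pos t0 (sub_pos.2 hcon)]

/-- L2: two consecutive M-neighbours of x span an M-edge and an empty triangle -/
theorem MaxNC.consec (hM : MaxNC S p M) {x y z : ℕ}
    (hxy : M x y) (hxz : M x z) (hS : 0 < D (p x) (p y) (p z))
    (hcons : ∀ w, M x w → 0 < D (p x) (p y) (p w) → 0 < D (p z) (p x) (p w) → False) :
    M y z ∧ ∀ w ∈ S, 0 ≤ D (p x) (p y) (p w) → 0 ≤ D (p y) (p z) (p w) →
      0 ≤ D (p z) (p x) (p w) → w = x ∨ w = y ∨ w = z := by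
  have hxS := (hM.mem _ _ hxy).1
  have hyS := (hM.mem _ _ hxy).2
  have hzS := (hM.mem _ _ hxz).2
  have hS' : D (p x) (p y) (p z) ≠ 0 := hS.ne'
  have hS2 : D (p x) (p z) (p y) ≠ 0 := by rw [D_swap']; exact neg_ne_zero.2 hS'
  have hempty : ∀ w ∈ S, 0 ≤ D (p x) (p y) (p w) → 0 ≤ D (p y) (p z) (p w) →
      0 ≤ D (p z) (p x) (p w) → w = x ∨ w = y ∨ w = z := by
    intro w hwS h1 h2 h3
    rcases eq_or_lt_of_le h1 with h1' | h1'
    · -- on the side x y
      have he := eq_ln_of_zero hS' h1'.symm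
      have hb := one_sub_bary hS' h1'.symm
      have s0 : 0 ≤ D (p z) (p x) (p w) / D (p x) (p y) (p z) := by positivity
      have s1 : 0 ≤ D (p y) (p z) (p w) / D (p x) (p y) (p z) := by positivity
      rcases eq_or_lt_of_le s0 with h | h
      · left; apply hM.inj w hwS x hxS; rw [he, ← h, ln_zero]
      rcases eq_or_lt_of_le s1 with h' | h'
      · right; left; apply hM.inj w hwS y hyS; rw [he]
        have : D (p z) (p x) (p w) / D (p x) (p y) (p z) = 1 := by linarith
        rw [this, ln_one]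
      · exact absurd ⟨_, h, by linarith, he⟩ (hM.free _ _ hxy w hwS)
    rcases eq_or_lt_of_le h3 with h3' | h3'
    · have h0' : D (p x) (p z) (p w) = 0 := by rw [D_swap]; linarith
      have he := eq_ln_of_zero hS2 h0'
      have hb := one_sub_bary hS2 h0'
      rw [D_swap (p x) (p y) (p w)] at he hb
      rw [D_swap' (p x) (p y) (p z)] at he hb
      rw [D_swap (p y) (p z) (p w)] at hb
      rw [neg_div_neg_eq] at he hb
      rw [neg_div_neg_eq] at hb
      have s0 : 0 ≤ D (p x) (p y) (p w) / D (p x) (p y) (p z) := by positivity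
      have s1 : 0 ≤ D (p y) (p z) (p w) / D (p x) (p y) (p z) := by positivity
      rcases eq_or_lt_of_le s0 with h | h
      · left; apply hM.inj w hwS x hxS; rw [he, ← h, ln_zero]
      rcases eq_or_lt_of_le s1 with h' | h'
      · right; right; apply hM.inj w hwS z hzS; rw [he]
        have : D (p x) (p y) (p w) / D (p x) (p y) (p z) = 1 := by linarith
        rw [this, ln_one]
      · exact absurd ⟨_, h, by linarith, he⟩ (hM.free _ _ hxz w hwS)
    obtain ⟨v, hv, v1, v3⟩ := hM.vis hxy hxz hS hwS h1' h3' h2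
    exact (hcons v hv v1 v3).elim
  refine ⟨?_, hempty⟩
  have nyz : y ≠ z := by rintro rfl; rw [D_self''] at hS; exact lt_irrefl _ hS
  have hpyz : p y ≠ p z := fun h => nyz (hM.inj y hyS z hzS h)
  have hSy : D (p z) (p x) (p y) = D (p x) (p y) (p z) := D_cyc' _ _ _
  -- points on the open segment y z
  have onseg : ∀ r : Pt, OSeg (p y) (p z) r → 0 < D (p x) (p y) r ∧ 0 < D (p z) (p x) r ∧
      D (p y) (p z) r = 0 := by
    rintro r ⟨s, s0, s1, rfl⟩
    rw [D_ln, D_ln, D_ln, D_self', D_self'', D_self'', D_self', hSy]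
    have a1 := mul_pos s0 hS
    have a2 := mul_pos (sub_pos.2 s1) hS
    exact ⟨by linarith, by linarith, by linarith⟩
  have hfree : Free S p y z := by
    intro s hs hseg
    obtain ⟨b1, b3, b2⟩ := onseg _ hseg
    rcases hempty s hs b1.le (by linarith) b3.le with h | h | h
    · rw [h, D_self'] at b1; exact lt_irrefl _ b1
    · rw [h, D_self''] at b1; exact lt_irrefl _ b1
    · rw [h, D_self'] at b3; exact lt_irrefl _ b3
  refine hM.max y hyS z hzS nyz hfree ?_
  intro c d r hcd hr1 hr2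
  have hcS := (hM.mem _ _ hcd).1
  have hdS := (hM.mem _ _ hcd).2
  obtain ⟨b1, b3, b2⟩ := onseg _ hr1
  obtain ⟨t, t0, t1, ht⟩ := id hr2
  have hconv : D (p y) (p z) r = (1 - t) * D (p y) (p z) (p c) + t * D (p y) (p z) (p d) := by
    rw [ht, D_ln]
  have fin : ∀ c d, M c d → OSeg (p c) (p d) r → 0 < D (p y) (p z) (p c) → False := by
    intro c d hcd hr2 hpos
    have hcS := (hM.mem _ _ hcd).1
    by_cases hcx : c = x
    · subst hcx
      obtain ⟨u, u0, u1, hu⟩ := id hr2
      have g1 := b1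
      have g3 := b3
      rw [hu, D_ln, D_self'] at g1
      rw [hu, D_ln, D_self''] at g3
      refine hcons d hcd ?_ ?_
      · by_contra hcon; push Not at hcon
        have := mul_nonneg u0.le (neg_nonneg.2 hcon)
        linarith
      · by_contra hcon; push Not at hcon
        have := mul_nonneg u0.le (neg_nonneg.2 hcon)
        linarith
    · refine hM.blocked hxy hxz hS hcd hcx hr2 b1 b3 (by linarith) hpos ?_
      by_contra hcon
      push Not at hcon
      rcases hempty c hcS hcon.1.le hpos.le hcon.2.le with h | h | h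
      · exact hcx h
      · rw [h, D_self'] at hpos; exact lt_irrefl _ hpos
      · rw [h, D_self''] at hpos; exact lt_irrefl _ hpos
  rcases lt_trichotomy (D (p y) (p z) (p c)) 0 with h | h | h
  · exfalso
    refine fin d c (hM.symm _ _ hcd) hr2.symm ?_
    by_contra hcon; push Not at hcon
    have e1 := mul_pos (sub_pos.2 t1) (neg_pos.2 h)
    have e2 := mul_nonneg t0.le (neg_nonneg.2 hcon)
    linarith
  · have hd0 : D (p y) (p z) (p d) = 0 := by
      rw [b2, h] at hconv
      have : t * D (p y) (p z) (p d) = 0 := by linarith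
      rcases mul_eq_zero.1 this with h' | h'
      · linarith
      · exact h'
    have hSy' : D (p y) (p z) (p x) ≠ 0 := by rw [D_cyc]; exact hS'
    exact hM.collin hcd hyS hzS hfree nyz hr1 hr2 (eq_ln_of_zero hSy' h)
      (eq_ln_of_zero hSy' hd0)
  · exact (fin c d hcd hr2 h).elim

end Pool.Agent.H64.Rcr
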